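import Pool.Agent.Lib.MP_26a019_lc.Mix.MDefs

set_option autoImplicit false

/-!
# Conditional expectations on a finite set of configurations: tower property and Pythagoras
-/

open Finset Classical

namespace Pool.Agent.KempeMix

open Pool.Agent.Kempe

variable {V C : Type} [Fintype V] [Fintype C]

theorem MTower.mem_cls (Om : Finset (V → C)) (S : Finset V) (f f' : V → C) :
    f' ∈ cls Om S f ↔ f' ∈ Om ∧ ∀ u ∈ S, f' u = f u := by
  unfold cls
  rw [Finset.mem_filter]

theorem cls_mem_self (Om : Finset (V → C)) (S : Finset V) (f : V → C) (hf : f ∈ Om) :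
    f ∈ cls Om S f := by
  rw [MTower.mem_cls]
  exact ⟨hf, fun u _ => rfl⟩

theorem cls_congr (Om : Finset (V → C)) (S : Finset V) (f f' : V → C) (h : f' ∈ cls Om S f) :
    cls Om S f' = cls Om S f := by
  ext x
  rw [MTower.mem_cls] at h
  rw [MTower.mem_cls, MTower.mem_cls]
  constructor
  · rintro ⟨h1, h2⟩
    exact ⟨h1, fun u hu => (h2 u hu).trans (h.2 u hu)⟩
  · rintro ⟨h1, h2⟩
    exact ⟨h1, fun u hu => (h2 u hu).trans (h.2 u hu).symm⟩

theorem MTower.ev_congr (A : Finset (V → C)) (g g' : (V → C) → ℝ) (h : ∀ f ∈ A, g f = g' f) :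
    ev A g = ev A g' := by
  unfold ev
  rw [Finset.sum_congr rfl h]

/-- Tower: averaging over the classes does not change the sum. Proof: swap the sums,
`∑_{f0} (1/|cls f0|) ∑_{f ∈ cls f0} F f = ∑_f F f ∑_{f0 ∈ cls f} 1/|cls f|`. -/
theorem tower (Om : Finset (V → C)) (S : Finset V) (F : (V → C) → ℝ) :
    ∑ f ∈ Om, ev (cls Om S f) F = ∑ f ∈ Om, F f := by
  have e1 : ∀ f ∈ Om, ev (cls Om S f) F =
      ∑ f' ∈ Om, if (∀ u ∈ S, f' u = f u) then F f' / ((cls Om S f').card : ℝ) else 0 := by
    intro f hf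
    unfold ev
    rw [Finset.sum_div, ← Finset.sum_filter]
    refine Finset.sum_congr rfl fun f' hf' => ?_
    rw [cls_congr Om S f f' hf']
  rw [Finset.sum_congr rfl e1, Finset.sum_comm]
  refine Finset.sum_congr rfl fun f' hf' => ?_
  rw [← Finset.sum_filter]
  have e2 : Om.filter (fun f => ∀ u ∈ S, f' u = f u) = cls Om S f' := by
    ext x
    rw [MTower.mem_cls, Finset.mem_filter]
    constructor
    · rintro ⟨h1, h2⟩
      exact ⟨h1, fun u hu => (h2 u hu).symm⟩
    · rintro ⟨h1, h2⟩
      exact ⟨h1, fun u hu => (h2 u hu).symm⟩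
  rw [e2, Finset.sum_const, nsmul_eq_mul]
  have hne : ((cls Om S f').card : ℝ) ≠ 0 := by
    have : 0 < (cls Om S f').card := Finset.card_pos.2 ⟨f', cls_mem_self Om S f' hf'⟩
    exact_mod_cast this.ne'
  field_simp

theorem MTower.cE_congr (Om : Finset (V → C)) (S : Finset V) (g : (V → C) → ℝ) (f f' : V → C)
    (h : f' ∈ cls Om S f) : cE Om S g f' = cE Om S g f := by
  unfold cE
  rw [cls_congr Om S f f' h]

theorem MTower.cls_insert_subset (Om : Finset (V → C)) (S : Finset V) (v : V) (f : V → C) :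
    cls Om (insert v S) f ⊆ cls Om S f := by
  intro x hx
  rw [MTower.mem_cls] at hx ⊢
  exact ⟨hx.1, fun u hu => hx.2 u (Finset.mem_insert_of_mem hu)⟩

theorem aa_eq (Om : Finset (V → C)) (g : (V → C) → ℝ) (S : Finset V) :
    aa Om g S = ∑ f ∈ Om, vr (cls Om S f) g := by
  unfold aa
  rw [← tower Om S (fun f => (g f - cE Om S g f) ^ 2)]
  refine Finset.sum_congr rfl fun f _ => ?_
  unfold vr
  refine MTower.ev_congr _ _ _ fun f' hf' => ?_
  rw [MTower.cE_congr Om S g f f' hf']
  rfl

/-- the mean of the deviation from the conditional expectation is zero on each class -/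
theorem MTower.ev_sub_cE (Om : Finset (V → C)) (S : Finset V) (g : (V → C) → ℝ) (f : V → C)
    (hf : f ∈ Om) : ∑ f' ∈ cls Om S f, (g f' - cE Om S g f') = 0 := by
  have e1 : ∑ f' ∈ cls Om S f, (g f' - cE Om S g f') =
      ∑ f' ∈ cls Om S f, (g f' - cE Om S g f) := by
    refine Finset.sum_congr rfl fun f' hf' => ?_
    rw [MTower.cE_congr Om S g f f' hf']
  rw [e1, Finset.sum_sub_distrib, Finset.sum_const, nsmul_eq_mul]
  unfold cE ev
  have hne : ((cls Om S f).card : ℝ) ≠ 0 := by
    have : 0 < (cls Om S f).card := Finset.card_pos.2 ⟨f, cls_mem_self Om S f hf⟩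
    exact_mod_cast this.ne'
  field_simp
  ring

/-- Pythagoras. -/
theorem aa_insert (Om : Finset (V → C)) (g : (V → C) → ℝ) (S : Finset V) (v : V) :
    aa Om g S = aa Om g (insert v S) +
      ∑ f ∈ Om, (cE Om (insert v S) g f - cE Om S g f) ^ 2 := by
  have hcross : ∑ f ∈ Om, (g f - cE Om (insert v S) g f) *
      (cE Om (insert v S) g f - cE Om S g f) = 0 := by
    rw [← tower Om (insert v S)
      (fun f => (g f - cE Om (insert v S) g f) * (cE Om (insert v S) g f - cE Om S g f))]
    refine Finset.sum_eq_zero fun f hf => ?_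
    unfold ev
    have e1 : ∑ f' ∈ cls Om (insert v S) f, (g f' - cE Om (insert v S) g f') *
        (cE Om (insert v S) g f' - cE Om S g f') =
        (∑ f' ∈ cls Om (insert v S) f, (g f' - cE Om (insert v S) g f')) *
          (cE Om (insert v S) g f - cE Om S g f) := by
      rw [Finset.sum_mul]
      refine Finset.sum_congr rfl fun f' hf' => ?_
      rw [MTower.cE_congr Om (insert v S) g f f' hf',
        MTower.cE_congr Om S g f f' (MTower.cls_insert_subset Om S v f hf')]
    rw [e1, MTower.ev_sub_cE Om (insert v S) g f hf, zero_mul, zero_div]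
  unfold aa
  have e2 : ∀ f ∈ Om, (g f - cE Om S g f) ^ 2 = (g f - cE Om (insert v S) g f) ^ 2 +
      (cE Om (insert v S) g f - cE Om S g f) ^ 2 +
      2 * ((g f - cE Om (insert v S) g f) * (cE Om (insert v S) g f - cE Om S g f)) := by
    intro f _
    ring
  rw [Finset.sum_congr rfl e2, Finset.sum_add_distrib, Finset.sum_add_distrib, ← Finset.mul_sum,
    hcross]
  ring

theorem aa_nonneg (Om : Finset (V → C)) (g : (V → C) → ℝ) (S : Finset V) : 0 ≤ aa Om g S := by
  unfold aa
  exact Finset.sum_nonneg fun f _ => sq_nonneg _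

/-- `∑_f (E[g|S,v] - E[g|S])^2` is the sum over `f` of the variance, in the class of `f`, of the
function `h (f v)`, `h c = E[g | class, f v = c]`. -/
theorem cE_insert_sq (Om : Finset (V → C)) (g : (V → C) → ℝ) (S : Finset V) (v : V) :
    ∑ f ∈ Om, (cE Om (insert v S) g f - cE Om S g f) ^ 2 =
      ∑ f ∈ Om, vr (cls Om S f)
        (fun f' => ev ((cls Om S f).filter (fun f'' => f'' v = f' v)) g) := by
  rw [← tower Om S (fun f => (cE Om (insert v S) g f - cE Om S g f) ^ 2)]
  refine Finset.sum_congr rfl fun f hf => ?_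
  have hcls : ∀ f' ∈ cls Om S f,
      (cls Om S f).filter (fun f'' => f'' v = f' v) = cls Om (insert v S) f' := by
    intro f' hf'
    ext x
    rw [Finset.mem_filter, MTower.mem_cls, MTower.mem_cls]
    rw [MTower.mem_cls] at hf'
    constructor
    · rintro ⟨⟨h1, h2⟩, h3⟩
      refine ⟨h1, fun u hu => ?_⟩
      rcases Finset.mem_insert.1 hu with rfl | hu
      · exact h3
      · exact (h2 u hu).trans (hf'.2 u hu).symm
    · rintro ⟨h1, h2⟩
      exact ⟨⟨h1, fun u hu => (h2 u (Finset.mem_insert_of_mem hu)).trans (hf'.2 u hu)⟩,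
        h2 v (Finset.mem_insert_self v S)⟩
  have hH : ∀ f' ∈ cls Om S f,
      ev ((cls Om S f).filter (fun f'' => f'' v = f' v)) g = cE Om (insert v S) g f' := by
    intro f' hf'
    rw [hcls f' hf']
    rfl
  -- the mean of `c_{S,v}` over the class is `c_S`
  have hcls2 : ∀ f' ∈ cls Om S f, cls (cls Om S f) (insert v S) f' = cls Om (insert v S) f' := by
    intro f' hf'
    ext x
    rw [MTower.mem_cls, MTower.mem_cls, MTower.mem_cls]
    rw [MTower.mem_cls] at hf'
    constructor
    · rintro ⟨⟨h1, _⟩, h3⟩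
      exact ⟨h1, h3⟩
    · rintro ⟨h1, h2⟩
      exact ⟨⟨h1, fun u hu => (h2 u (Finset.mem_insert_of_mem hu)).trans (hf'.2 u hu)⟩, h2⟩
  have hmean : ev (cls Om S f)
      (fun f' => ev ((cls Om S f).filter (fun f'' => f'' v = f' v)) g) = cE Om S g f := by
    rw [MTower.ev_congr (cls Om S f) _ _ hH]
    unfold cE
    have ht := tower (cls Om S f) (insert v S) g
    unfold ev at ht ⊢
    congr 1
    rw [← ht]
    refine Finset.sum_congr rfl fun f' hf' => ?_
    rw [hcls2 f' hf']
  unfold vr
  rw [hmean]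
  refine MTower.ev_congr _ _ _ fun f' hf' => ?_
  beta_reduce
  rw [hH f' hf', MTower.cE_congr Om S g f f' hf']

end Pool.Agent.KempeMix
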