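import Pool.Agent.Lib.MP_26a019_lc.Mix.MChain

set_option autoImplicit false

/-!
# Mixing of Glauber dynamics from the Poincare inequality
-/

open Finset Classical

namespace Pool.Agent.KempeMix

open Pool.Agent.Kempe


namespace MMixaux

section abs

variable {S : Type*} [Fintype S] [DecidableEq S]

theorem rec_abs (M : Matrix S S ℝ) (hs : ∀ x y, M x y = M y x) (hr : ∀ x, ∑ y, M x y = 1)
    (x0 : S) (c : ℝ) (t : ℕ) (y : S) :
    (M ^ (t + 1)) x0 y - c = ∑ z, M y z * ((M ^ t) x0 z - c) := by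
  rw [pow_succ, Matrix.mul_apply]
  have e : ∑ z, M y z * ((M ^ t) x0 z - c) = ∑ z, M y z * (M ^ t) x0 z - c * ∑ z, M y z := by
    rw [Finset.mul_sum, ← Finset.sum_sub_distrib]
    exact Finset.sum_congr rfl fun z _ => by ring
  rw [e, hr y, mul_one]
  congr 1
  exact Finset.sum_congr rfl fun z _ => by rw [hs z y, mul_comm]

theorem sum_abs (M : Matrix S S ℝ) (hs : ∀ x y, M x y = M y x) (hr : ∀ x, ∑ y, M x y = 1)
    (x0 : S) (t : ℕ) :
    ∑ y, ((M ^ t) x0 y - 1 / (Fintype.card S : ℝ)) = 0 := by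
  have hN : (Fintype.card S : ℝ) ≠ 0 := by
    have : 0 < Fintype.card S := Fintype.card_pos_iff.2 ⟨x0⟩
    positivity
  induction t with
  | zero =>
    rw [Finset.sum_sub_distrib]
    simp only [pow_zero, Finset.sum_const, Finset.card_univ, nsmul_eq_mul]
    rw [mul_one_div_cancel hN]
    simp [Matrix.one_apply]
  | succ t ih =>
    simp only [rec_abs M hs hr x0]
    rw [Finset.sum_comm]
    have : ∀ z, ∑ y, M y z * ((M ^ t) x0 z - 1 / (Fintype.card S : ℝ)) =
        (M ^ t) x0 z - 1 / (Fintype.card S : ℝ) := by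
      intro z
      rw [← Finset.sum_mul]
      have : ∑ y, M y z = 1 := by
        rw [← hr z]
        exact Finset.sum_congr rfl fun y _ => hs y z
      rw [this, one_mul]
    simp only [this]
    exact ih

theorem sq_abs' (M : Matrix S S ℝ) (hs : ∀ x y, M x y = M y x) (hr : ∀ x, ∑ y, M x y = 1)
    (lam : ℝ) (hl : 0 ≤ lam)
    (hc : ∀ u : S → ℝ, ∑ x, u x = 0 → ∑ x, (∑ y, M x y * u y) ^ 2 ≤ lam * ∑ x, u x ^ 2)
    (x0 : S) (t : ℕ) :
    ∑ y, ((M ^ t) x0 y - 1 / (Fintype.card S : ℝ)) ^ 2 ≤ lam ^ t := by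
  have hNp : (0 : ℝ) < (Fintype.card S : ℝ) := by
    have : 0 < Fintype.card S := Fintype.card_pos_iff.2 ⟨x0⟩
    exact_mod_cast this
  induction t with
  | zero =>
    have e : ∀ y, ((M ^ 0) x0 y - 1 / (Fintype.card S : ℝ)) ^ 2 =
        (if x0 = y then 1 - 2 * (1 / (Fintype.card S : ℝ)) else 0) +
          (1 / (Fintype.card S : ℝ)) ^ 2 := by
      intro y
      rw [pow_zero, Matrix.one_apply]
      split_ifs <;> ring
    simp only [e]
    rw [Finset.sum_add_distrib, Finset.sum_ite_eq, if_pos (Finset.mem_univ _), Finset.sum_const,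
      Finset.card_univ, nsmul_eq_mul]
    have : (Fintype.card S : ℝ) * (1 / (Fintype.card S : ℝ)) ^ 2 = 1 / (Fintype.card S : ℝ) := by
      field_simp
    rw [this, pow_zero]
    have : 0 < 1 / (Fintype.card S : ℝ) := by positivity
    linarith
  | succ t ih =>
    simp only [rec_abs M hs hr x0]
    refine (hc _ (sum_abs M hs hr x0 t)).trans ?_
    rw [pow_succ, mul_comm]
    exact mul_le_mul_of_nonneg_right ih hl

theorem mix_abs (M : Matrix S S ℝ) (hs : ∀ x y, M x y = M y x) (hr : ∀ x, ∑ y, M x y = 1)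
    (lam : ℝ) (hl : 0 ≤ lam)
    (hc : ∀ u : S → ℝ, ∑ x, u x = 0 → ∑ x, (∑ y, M x y * u y) ^ 2 ≤ lam * ∑ x, u x ^ 2)
    (x0 : S) (t : ℕ) :
    (∑ y, |(M ^ t) x0 y - 1 / (Fintype.card S : ℝ)|) ^ 2 ≤ (Fintype.card S : ℝ) * lam ^ t := by
  have h1 := sq_sum_le_card_mul_sum_sq (s := (Finset.univ : Finset S))
    (f := fun y => |(M ^ t) x0 y - 1 / (Fintype.card S : ℝ)|)
  simp only [sq_abs, Finset.card_univ] at h1
  exact h1.trans (mul_le_mul_of_nonneg_left (sq_abs' M hs hr lam hl hc x0 t) (Nat.cast_nonneg _))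

end abs

variable {V C : Type}

theorem ev_const (A : Finset (V → C)) (hA : A.Nonempty) (c : ℝ) : ev A (fun _ => c) = c := by
  unfold ev
  rw [Finset.sum_const, nsmul_eq_mul]
  have : (A.card : ℝ) ≠ 0 := by
    have := hA.card_pos
    positivity
  field_simp

variable [Fintype V] [Fintype C]

theorem row_sum [Nonempty V] (G : SimpleGraph V) (f : V → C) (hf : f ∈ PC G C) :
    ∑ f' ∈ PC G C, glauber G f f' = 1 := by
  have h := glauber_avg G (fun _ => (1 : ℝ)) f hf
  simp only [mul_one] at h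
  rw [h]
  have e : ∀ v : V, cE (PC G C) ({v}ᶜ) (fun _ => (1 : ℝ)) f = 1 := by
    intro v
    unfold cE
    apply ev_const
    refine ⟨f, ?_⟩
    unfold cls
    exact Finset.mem_filter.2 ⟨hf, fun u _ => rfl⟩
  simp only [e, Finset.sum_const, Finset.card_univ, nsmul_eq_mul, mul_one]
  have : (Fintype.card V : ℝ) ≠ 0 := by
    have : 0 < Fintype.card V := Fintype.card_pos
    positivity
  field_simp

theorem final_bound (n : ℕ) (hn : 0 < n) (B : ℝ) (hB : 1 ≤ B) (N Q : ℝ) 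
    (hNQ : N ≤ Q) (hQ : 0 < Q) (t : ℕ) (ht : (n : ℝ) * B * Real.log (4 * Q) ≤ t) :
    N * (1 - 1 / ((n : ℝ) * B)) ^ t ≤ 1 / 4 := by
  have hn' : (1 : ℝ) ≤ n := by exact_mod_cast hn
  have hnB : 1 ≤ (n : ℝ) * B := by nlinarith
  have hnB0 : 0 < (n : ℝ) * B := by linarith
  have h0 : 0 ≤ 1 - 1 / ((n : ℝ) * B) := by
    have : 1 / ((n : ℝ) * B) ≤ 1 := by
      rw [div_le_one hnB0]
      exact hnB
    linarith
  have h1 : 1 - 1 / ((n : ℝ) * B) ≤ Real.exp (-(1 / ((n : ℝ) * B))) := by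
    have := Real.add_one_le_exp (-(1 / ((n : ℝ) * B)))
    linarith
  have h2 : (1 - 1 / ((n : ℝ) * B)) ^ t ≤ Real.exp (-(Real.log (4 * Q))) := by
    refine (pow_le_pow_left₀ h0 h1 t).trans ?_
    rw [← Real.exp_nat_mul, Real.exp_le_exp]
    have h3 : Real.log (4 * Q) ≤ (t : ℝ) * (1 / ((n : ℝ) * B)) := by
      rw [mul_one_div, le_div_iff₀ hnB0]
      linarith
    linarith
  rw [Real.exp_neg, Real.exp_log (by positivity)] at h2
  calc N * (1 - 1 / ((n : ℝ) * B)) ^ t ≤ Q * (4 * Q)⁻¹ :=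
        mul_le_mul hNQ h2 (pow_nonneg h0 _) hQ.le
    _ = 1 / 4 := by field_simp

end MMixaux

variable {V C : Type} [Fintype V] [Fintype C]

open MMixaux in
/-- Mixing from the Poincare inequality. `t ≥ n B log(4 q^n)` steps suffice. -/
theorem mix_of_poincare [Nonempty V] (G : SimpleGraph V) (B : ℝ) (hB : 1 ≤ B)
    (hP : ∀ g : (V → C) → ℝ, aa (PC G C) g ∅ ≤ B * ∑ v, aa (PC G C) g ({v}ᶜ))
    (t : ℕ) (ht : (Fintype.card V : ℝ) * B *
      Real.log (4 * (Fintype.card C : ℝ) ^ (Fintype.card V)) ≤ t)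
    (f0 : {f : V → C // f ∈ PC G C}) : tvd G C t f0 ≤ 1 / 4 := by
  have hn : 0 < Fintype.card V := Fintype.card_pos
  have hn' : (1 : ℝ) ≤ (Fintype.card V : ℝ) := by exact_mod_cast hn
  have hB0 : 0 < B := by linarith
  have hsub : ∀ F : (V → C) → ℝ, ∑ f ∈ PC G C, F f =
      ∑ x : {f : V → C // f ∈ PC G C}, F x.1 := fun F =>
    Finset.sum_subtype (PC G C) (fun x => Iff.rfl) F
  have hs : ∀ x y, GM G C x y = GM G C y x := fun x y => glauber_symm G x.1 y.1 x.2 y.2
  have hr : ∀ x, ∑ y, GM G C x y = 1 := by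
    intro x
    rw [← row_sum G x.1 x.2, hsub]
    rfl
  have hl : 0 ≤ 1 - 1 / ((Fintype.card V : ℝ) * B) := by
    have h1 : 1 ≤ (Fintype.card V : ℝ) * B := by nlinarith
    have : 1 / ((Fintype.card V : ℝ) * B) ≤ 1 := by
      rw [div_le_one (by linarith)]
      exact h1
    linarith
  have hc : ∀ u : {f : V → C // f ∈ PC G C} → ℝ, ∑ x, u x = 0 →
      ∑ x, (∑ y, GM G C x y * u y) ^ 2 ≤
        (1 - 1 / ((Fintype.card V : ℝ) * B)) * ∑ x, u x ^ 2 := by
    intro u hu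
    set g : (V → C) → ℝ := fun f => if h : f ∈ PC G C then u ⟨f, h⟩ else 0 with hg
    have hgu : ∀ x : {f : V → C // f ∈ PC G C}, g x.1 = u x := by
      intro x
      simp only [hg]
      rw [dif_pos x.2]
    have h0 : ∑ f ∈ PC G C, g f = 0 := by
      rw [hsub]
      simp only [hgu]
      exact hu
    have h1 := contract G B hB0 hP g h0
    rw [hsub, hsub (fun f => g f ^ 2)] at h1
    simp only [hsub, hgu] at h1
    exact h1
  have hmix := mix_abs (GM G C) hs hr _ hl hc f0 t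
  have hcard : Fintype.card {f : V → C // f ∈ PC G C} = (PC G C).card := by
    rw [Fintype.card_of_subtype (PC G C) (fun x => Iff.rfl)]
  rw [hcard] at hmix
  have hQ : ((PC G C).card : ℝ) ≤ (Fintype.card C : ℝ) ^ (Fintype.card V) := by
    have h1 : (PC G C).card ≤ Fintype.card (V → C) := Finset.card_le_univ _
    rw [Fintype.card_fun] at h1
    exact_mod_cast h1
  have hQ0 : (0 : ℝ) < (Fintype.card C : ℝ) ^ (Fintype.card V) := by
    have h1 : 0 < (PC G C).card := Finset.card_pos.2 ⟨f0.1, f0.2⟩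
    have h2 : (0 : ℝ) < ((PC G C).card : ℝ) := by exact_mod_cast h1
    linarith
  have hfin := final_bound (Fintype.card V) hn B hB ((PC G C).card : ℝ) _
    hQ hQ0 t ht
  have hsq : (∑ y, |((GM G C) ^ t) f0 y - 1 / ((PC G C).card : ℝ)|) ^ 2 ≤ (1 / 2) ^ 2 := by
    refine (hmix.trans hfin).trans (by norm_num)
  have hfin2 := abs_le_of_sq_le_sq hsq (by norm_num)
  have hfin3 := (le_abs_self _).trans hfin2
  unfold tvd
  linarith

end Pool.Agent.KempeMix
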