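import Pool.Agent.Lib.MP_26a019_lc.Mix.MDefs

set_option autoImplicit false

/-!
Glauber dynamics as the average of the conditional expectations; one step contraction.
-/

open Finset Classical

namespace Pool.Agent.KempeMix

open Pool.Agent.Kempe

variable {V C : Type} [Fintype V] [Fintype C]

namespace MChainaux

theorem mem_cls {Om : Finset (V → C)} {S : Finset V} {f f' : V → C} :
    f' ∈ cls Om S f ↔ f' ∈ Om ∧ ∀ u ∈ S, f' u = f u := by
  unfold cls
  rw [Finset.mem_filter]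

theorem cls_self {Om : Finset (V → C)} (S : Finset V) {f : V → C} (hf : f ∈ Om) :
    f ∈ cls Om S f := mem_cls.2 ⟨hf, fun _ _ => rfl⟩

theorem cls_eq {Om : Finset (V → C)} {S : Finset V} {f f' : V → C} (h : f' ∈ cls Om S f) :
    cls Om S f' = cls Om S f := by
  ext x
  rw [mem_cls, mem_cls]
  have h2 := (mem_cls.1 h).2
  constructor
  · rintro ⟨hx, h1⟩
    exact ⟨hx, fun u hu => (h1 u hu).trans (h2 u hu)⟩
  · rintro ⟨hx, h1⟩
    exact ⟨hx, fun u hu => (h1 u hu).trans (h2 u hu).symm⟩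

theorem cls_comm {Om : Finset (V → C)} {S : Finset V} {f f' : V → C} (hf : f ∈ Om) (hf' : f' ∈ Om) :
    f ∈ cls Om S f' ↔ f' ∈ cls Om S f := by
  rw [mem_cls, mem_cls]
  constructor
  · rintro ⟨-, h⟩; exact ⟨hf', fun u hu => (h u hu).symm⟩
  · rintro ⟨-, h⟩; exact ⟨hf, fun u hu => (h u hu).symm⟩

theorem tower' (Om : Finset (V → C)) (S : Finset V) (F : (V → C) → ℝ) :
    ∑ f ∈ Om, ev (cls Om S f) F = ∑ f ∈ Om, F f := by
  have h1 : ∀ f0 ∈ Om, ev (cls Om S f0) F =
      ∑ f ∈ Om, (if f ∈ cls Om S f0 then F f / ((cls Om S f0).card : ℝ) else 0) := by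
    intro f0 _
    unfold ev
    rw [← Finset.sum_filter, Finset.sum_div]
    refine Finset.sum_congr ?_ fun _ _ => rfl
    ext f
    rw [Finset.mem_filter]
    exact ⟨fun h => ⟨(mem_cls.1 h).1, h⟩, fun h => h.2⟩
  rw [Finset.sum_congr rfl h1, Finset.sum_comm]
  refine Finset.sum_congr rfl fun f hf => ?_
  have h2 : ∀ f0 ∈ Om, (if f ∈ cls Om S f0 then F f / ((cls Om S f0).card : ℝ) else 0) =
      (if f0 ∈ cls Om S f then F f / ((cls Om S f).card : ℝ) else 0) := by
    intro f0 hf0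
    by_cases h : f ∈ cls Om S f0
    · rw [if_pos h, if_pos ((cls_comm hf hf0).1 h), cls_eq h]
    · rw [if_neg h, if_neg fun h' => h ((cls_comm hf hf0).2 h')]
  rw [Finset.sum_congr rfl h2, ← Finset.sum_filter]
  have h3 : Om.filter (fun f0 => f0 ∈ cls Om S f) = cls Om S f := by
    ext x
    rw [Finset.mem_filter]
    exact ⟨fun h => h.2, fun h => ⟨(mem_cls.1 h).1, h⟩⟩
  rw [h3, Finset.sum_const, nsmul_eq_mul]
  have h4 : ((cls Om S f).card : ℝ) ≠ 0 := by
    have : 0 < (cls Om S f).card := Finset.card_pos.2 ⟨f, cls_self S hf⟩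
    exact_mod_cast this.ne'
  field_simp

theorem cE_eq {Om : Finset (V → C)} {S : Finset V} {g : (V → C) → ℝ} {f f' : V → C}
    (h : f' ∈ cls Om S f) : cE Om S g f' = cE Om S g f := by
  unfold cE
  rw [cls_eq h]

/-- `∑ g E[g|S] = ∑ E[g|S]²`. -/
theorem sum_mul_cE (Om : Finset (V → C)) (S : Finset V) (g : (V → C) → ℝ) :
    ∑ f ∈ Om, g f * cE Om S g f = ∑ f ∈ Om, (cE Om S g f) ^ 2 := by
  rw [← tower' Om S (fun f => g f * cE Om S g f)]
  refine Finset.sum_congr rfl fun f _ => ?_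
  unfold ev
  have h1 : ∑ f' ∈ cls Om S f, g f' * cE Om S g f' = ∑ f' ∈ cls Om S f, g f' * cE Om S g f :=
    Finset.sum_congr rfl fun f' hf' => by rw [cE_eq hf']
  rw [h1, ← Finset.sum_mul, mul_div_right_comm, pow_two]
  rfl

theorem aa_pyth (Om : Finset (V → C)) (S : Finset V) (g : (V → C) → ℝ) :
    ∑ f ∈ Om, (cE Om S g f) ^ 2 = ∑ f ∈ Om, (g f) ^ 2 - aa Om g S := by
  unfold aa
  have h := sum_mul_cE Om S g
  have h2 : ∑ f ∈ Om, (g f - cE Om S g f) ^ 2 =
      ∑ f ∈ Om, (g f) ^ 2 - 2 * ∑ f ∈ Om, g f * cE Om S g f + ∑ f ∈ Om, (cE Om S g f) ^ 2 := by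
    rw [Finset.mul_sum, ← Finset.sum_sub_distrib, ← Finset.sum_add_distrib]
    exact Finset.sum_congr rfl fun f _ => by ring
  rw [h2, h]
  ring

theorem mem_PC {G : SimpleGraph V} {f : V → C} : f ∈ PC G C ↔ Proper G f := by
  unfold PC
  simp

theorem mem_compl_cls {G : SimpleGraph V} {v : V} {f f' : V → C} :
    f' ∈ cls (PC G C) ({v}ᶜ) f ↔ Proper G f' ∧ ∀ u, u ≠ v → f' u = f u := by
  rw [mem_cls, mem_PC]
  simp

theorem avail_of_cls {G : SimpleGraph V} {v : V} {f f' : V → C}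
    (h' : Proper G f') (h : ∀ u, u ≠ v → f' u = f u) : f' v ∈ avail G f v := by
  unfold avail
  rw [Finset.mem_filter]
  refine ⟨Finset.mem_univ _, fun u hu => ?_⟩
  have huv : u ≠ v := fun h => G.loopless.irrefl v (h ▸ hu)
  rw [← h u huv]
  exact h' u v hu.symm

theorem card_cls_avail {G : SimpleGraph V} {v : V} {f : V → C} (hf : Proper G f) :
    (cls (PC G C) ({v}ᶜ) f).card = (avail G f v).card := by
  refine Finset.card_bij (fun f' _ => f' v) ?_ ?_ ?_
  · intro f' hf'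
    have h := mem_compl_cls.1 hf'
    exact avail_of_cls h.1 h.2
  · intro f1 h1 f2 h2 h
    have h1' := mem_compl_cls.1 h1
    have h2' := mem_compl_cls.1 h2
    funext u
    by_cases hu : u = v
    · rw [hu]; exact h
    · rw [h1'.2 u hu, h2'.2 u hu]
  · intro c hc
    unfold avail at hc
    rw [Finset.mem_filter] at hc
    refine ⟨Function.update f v c, mem_compl_cls.2 ⟨?_, fun u hu => Function.update_of_ne hu _ _⟩,
      Function.update_self _ _ _⟩
    intro u w huw
    by_cases hu : u = v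
    · have hw : w ≠ v := fun h => G.loopless.irrefl v (by rw [hu, h] at huw; exact huw)
      rw [hu, Function.update_self, Function.update_of_ne hw]
      exact (hc.2 w (hu ▸ huw)).symm
    · by_cases hw : w = v
      · rw [hw, Function.update_self, Function.update_of_ne hu]
        exact hc.2 u (hw ▸ huw.symm)
      · rw [Function.update_of_ne hu, Function.update_of_ne hw]
        exact hf u w huw

end MChainaux

open MChainaux

/-- The Glauber operator is the average of the conditional expectations. -/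
theorem glauber_avg (G : SimpleGraph V) (g : (V → C) → ℝ) (f : V → C) (hf : f ∈ PC G C) :
    ∑ f' ∈ PC G C, glauber G f f' * g f' =
      (1 / (Fintype.card V : ℝ)) * ∑ v, cE (PC G C) ({v}ᶜ) g f := by
  have hfp := mem_PC.1 hf
  have h1 : ∀ f' ∈ PC G C, glauber G f f' * g f' = (1 / (Fintype.card V : ℝ)) *
      ∑ v, (if f' ∈ cls (PC G C) ({v}ᶜ) f then g f' / ((cls (PC G C) ({v}ᶜ) f).card : ℝ) else 0) := by
    intro f' hf'
    unfold glauber
    rw [mul_assoc, Finset.sum_mul]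
    congr 1
    refine Finset.sum_congr rfl fun v _ => ?_
    have hf'p := mem_PC.1 hf'
    by_cases h : ∀ u, u ≠ v → f' u = f u
    · rw [if_pos ⟨h, avail_of_cls hf'p h⟩, if_pos (mem_compl_cls.2 ⟨hf'p, h⟩), card_cls_avail hfp]
      ring
    · rw [if_neg fun hc => h hc.1, if_neg fun hc => h (mem_compl_cls.1 hc).2, zero_mul]
  rw [Finset.sum_congr rfl h1, ← Finset.mul_sum, Finset.sum_comm]
  congr 1
  refine Finset.sum_congr rfl fun v _ => ?_
  unfold cE ev
  rw [← Finset.sum_filter, Finset.sum_div]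
  refine Finset.sum_congr ?_ fun _ _ => rfl
  ext x
  rw [Finset.mem_filter]
  exact ⟨fun h => h.2, fun h => ⟨(mem_cls.1 h).1, h⟩⟩

theorem glauber_symm (G : SimpleGraph V) (f f' : V → C) (hf : f ∈ PC G C) (hf' : f' ∈ PC G C) :
    glauber G f f' = glauber G f' f := by
  have hfp := mem_PC.1 hf
  have hf'p := mem_PC.1 hf'
  unfold glauber
  congr 1
  refine Finset.sum_congr rfl fun v _ => ?_
  by_cases h : ∀ u, u ≠ v → f' u = f u
  · have h' : ∀ u, u ≠ v → f u = f' u := fun u hu => (h u hu).symm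
    rw [if_pos ⟨h, avail_of_cls hf'p h⟩, if_pos ⟨h', avail_of_cls hfp h'⟩]
    have : avail G f v = avail G f' v := by
      unfold avail
      refine Finset.filter_congr fun c _ => ?_
      constructor
      · intro hc u hu
        have huv : u ≠ v := fun e => G.loopless.irrefl v (e ▸ hu)
        rw [h u huv]; exact hc u hu
      · intro hc u hu
        have huv : u ≠ v := fun e => G.loopless.irrefl v (e ▸ hu)
        rw [h' u huv]; exact hc u hu
    rw [this]
  · rw [if_neg fun hc => h hc.1, if_neg fun hc => h fun u hu => (hc.1 u hu).symm]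

/-- One step of contraction in `L^2` for mean zero functions. -/
theorem contract [Nonempty V] (G : SimpleGraph V) (B : ℝ) (hB : 0 < B)
    (hP : ∀ g : (V → C) → ℝ, aa (PC G C) g ∅ ≤ B * ∑ v, aa (PC G C) g ({v}ᶜ))
    (g : (V → C) → ℝ) (hg : ∑ f ∈ PC G C, g f = 0) :
    ∑ f ∈ PC G C, (∑ f' ∈ PC G C, glauber G f f' * g f') ^ 2 ≤
      (1 - 1 / ((Fintype.card V : ℝ) * B)) * ∑ f ∈ PC G C, (g f) ^ 2 := by
  have hn : (0 : ℝ) < Fintype.card V := by exact_mod_cast Fintype.card_pos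
  -- `aa ∅` is the norm
  have h0 : aa (PC G C) g ∅ = ∑ f ∈ PC G C, (g f) ^ 2 := by
    unfold aa
    refine Finset.sum_congr rfl fun f _ => ?_
    have : cE (PC G C) ∅ g f = 0 := by
      unfold cE ev
      have : cls (PC G C) ∅ f = PC G C := by
        unfold cls; simp
      rw [this, hg, zero_div]
    rw [this, sub_zero]
  have h1 : ∑ f ∈ PC G C, (∑ f' ∈ PC G C, glauber G f f' * g f') ^ 2 ≤
      ∑ f ∈ PC G C, (1 / (Fintype.card V : ℝ)) * ∑ v, (cE (PC G C) ({v}ᶜ) g f) ^ 2 := by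
    refine Finset.sum_le_sum fun f hf => ?_
    rw [glauber_avg G g f hf, mul_pow, pow_two (1 / (Fintype.card V : ℝ)), mul_assoc]
    refine mul_le_mul_of_nonneg_left ?_ (by positivity)
    have h2 := sq_sum_le_card_mul_sum_sq (s := (Finset.univ : Finset V))
      (f := fun v => cE (PC G C) ({v}ᶜ) g f)
    rw [Finset.card_univ] at h2
    rw [div_mul_eq_mul_div, one_mul, div_le_iff₀ hn]
    linarith
  refine h1.trans ?_
  rw [← Finset.mul_sum, Finset.sum_comm]
  have h3 : ∑ v, ∑ f ∈ PC G C, (cE (PC G C) ({v}ᶜ) g f) ^ 2 =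
      (Fintype.card V : ℝ) * ∑ f ∈ PC G C, (g f) ^ 2 - ∑ v, aa (PC G C) g ({v}ᶜ) := by
    rw [Finset.sum_congr rfl fun v _ => aa_pyth (PC G C) ({v}ᶜ) g, Finset.sum_sub_distrib,
      Finset.sum_const, Finset.card_univ, nsmul_eq_mul]
  rw [h3]
  have h4 := hP g
  rw [h0] at h4
  have h5 : (∑ f ∈ PC G C, (g f) ^ 2) / B ≤ ∑ v, aa (PC G C) g ({v}ᶜ) := by
    rw [div_le_iff₀ hB]; linarith
  have h6 : (1 / (Fintype.card V : ℝ)) * ((Fintype.card V : ℝ) * ∑ f ∈ PC G C, (g f) ^ 2 -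
      (∑ f ∈ PC G C, (g f) ^ 2) / B) =
      (1 - 1 / ((Fintype.card V : ℝ) * B)) * ∑ f ∈ PC G C, (g f) ^ 2 := by
    field_simp
  rw [← h6]
  exact mul_le_mul_of_nonneg_left (by linarith) (by positivity)

end Pool.Agent.KempeMix
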