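import Pool.Agent.Lib.MP_26a019_lc.Mix.MDefs

set_option autoImplicit false

/-!
# Duality: variance bound for additive functions gives the bound for conditional expectations
-/

open Finset Classical

namespace Pool.Agent.KempeMix

open Pool.Agent.Kempe

variable {V C : Type} [Fintype V] [Fintype C]

omit [Fintype V] in
/-- The conditional expectation given `f v` in the weak form. -/
theorem dual_sum_cond (A : Finset (V → C)) (g : (V → C) → ℝ) (v : V) (ψ : C → ℝ) :
    ∑ f ∈ A, g f * ψ (f v) = ∑ f ∈ A, ev (A.filter (fun f' => f' v = f v)) g * ψ (f v) := by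
  rw [← Finset.sum_fiberwise A (fun f => f v) (fun f => g f * ψ (f v)),
    ← Finset.sum_fiberwise A (fun f => f v)
      (fun f => ev (A.filter (fun f' => f' v = f v)) g * ψ (f v))]
  refine Finset.sum_congr rfl (fun c _ => ?_)
  have h1 : ∑ f ∈ A.filter (fun f => f v = c), g f * ψ (f v)
      = (∑ f ∈ A.filter (fun f => f v = c), g f) * ψ c := by
    rw [Finset.sum_mul]
    refine Finset.sum_congr rfl (fun f hf => ?_)
    rw [(Finset.mem_filter.mp hf).2]
  have h2 : ∑ f ∈ A.filter (fun f => f v = c), ev (A.filter (fun f' => f' v = f v)) g * ψ (f v)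
      = ((A.filter (fun f => f v = c)).card : ℝ) *
        (ev (A.filter (fun f' => f' v = c)) g * ψ c) := by
    rw [← nsmul_eq_mul, ← Finset.sum_const]
    refine Finset.sum_congr rfl (fun f hf => ?_)
    rw [(Finset.mem_filter.mp hf).2]
  rw [h1, h2]
  unfold ev
  rcases Finset.eq_empty_or_nonempty (A.filter (fun f => f v = c)) with h0 | h0
  · rw [h0]
    simp
  · have : ((A.filter (fun f => f v = c)).card : ℝ) ≠ 0 := by
      have := Finset.card_pos.mpr h0
      positivity
    field_simp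

/-- Duality on one finite set `A`: the variance bound for additive functions gives the bound for
the conditional expectations of an arbitrary `g`. Proof: `h v c = E_A[g | f v = c]`,
`Var(h v) = Cov(g, h v)`, so `X = ∑ Var(h v) = Cov(g, ∑ h v)`, `X^2 ≤ Var g * Var(∑ h v) ≤
Var g * K X`. -/
theorem dual (A : Finset (V → C)) (U : Finset V) (K : ℝ) (hK : 0 ≤ K)
    (H : ∀ h : V → C → ℝ, vr A (fun f => ∑ v ∈ U, h v (f v)) ≤
      K * ∑ v ∈ U, vr A (fun f => h v (f v)))
    (g : (V → C) → ℝ) :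
    ∑ v ∈ U, vr A (fun f => ev (A.filter (fun f' => f' v = f v)) g) ≤ K * vr A g := by
  set h : V → C → ℝ := fun v c => ev (A.filter (fun f' => f' v = c)) g with hh
  have hkey : ∀ (v : V) (ψ : C → ℝ), ∑ f ∈ A, g f * ψ (f v) = ∑ f ∈ A, h v (f v) * ψ (f v) :=
    fun v ψ => dual_sum_cond A g v ψ
  rcases Finset.eq_empty_or_nonempty A with hA | hA
  · subst hA
    simp [vr, ev]
  have hn : (0 : ℝ) < (A.card : ℝ) := by
    have := Finset.card_pos.mpr hA
    exact_mod_cast this
  set n : ℝ := (A.card : ℝ) with hndef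
  set m : ℝ := ev A g with hm
  have hsum_g : ∑ f ∈ A, g f = n * m := by
    rw [hm, ev, mul_div_cancel₀ _ hn.ne']
  have hsum_h : ∀ v, ∑ f ∈ A, h v (f v) = n * m := by
    intro v
    have := hkey v (fun _ => 1)
    simp only [mul_one] at this
    rw [← this, hsum_g]
  have hev_h : ∀ v, ev A (fun f => h v (f v)) = m := by
    intro v
    rw [ev, hsum_h, mul_div_cancel_left₀ _ hn.ne']
  -- the variances of the conditional expectations are covariances
  have hvar : ∀ v, n * vr A (fun f => h v (f v))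
      = ∑ f ∈ A, (g f - m) * (h v (f v) - m) := by
    intro v
    have h1 : n * vr A (fun f => h v (f v)) = ∑ f ∈ A, (h v (f v) - m) ^ 2 := by
      rw [vr, hev_h, ev, mul_div_cancel₀ _ hn.ne']
    rw [h1]
    have h2 := hkey v (h v)
    have e1 : ∑ f ∈ A, (h v (f v) - m) ^ 2
        = ∑ f ∈ A, h v (f v) * h v (f v) - 2 * m * ∑ f ∈ A, h v (f v) + n * m ^ 2 := by
      rw [Finset.mul_sum, ← Finset.sum_sub_distrib, hndef, ← nsmul_eq_mul, ← Finset.sum_const,
        ← Finset.sum_add_distrib]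
      exact Finset.sum_congr rfl (fun f _ => by ring)
    have e2 : ∑ f ∈ A, (g f - m) * (h v (f v) - m)
        = ∑ f ∈ A, g f * h v (f v) - m * ∑ f ∈ A, g f - m * ∑ f ∈ A, h v (f v) + n * m ^ 2 := by
      rw [Finset.mul_sum, Finset.mul_sum, ← Finset.sum_sub_distrib, ← Finset.sum_sub_distrib,
        hndef, ← nsmul_eq_mul, ← Finset.sum_const, ← Finset.sum_add_distrib]
      exact Finset.sum_congr rfl (fun f _ => by ring)
    rw [e1, e2, h2, hsum_g, hsum_h]
    ring
  set X : ℝ := ∑ v ∈ U, vr A (fun f => h v (f v)) with hX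
  set Z : (V → C) → ℝ := fun f => ∑ v ∈ U, h v (f v) with hZ
  have hevZ : ev A Z = (U.card : ℝ) * m := by
    rw [ev, hZ, Finset.sum_comm, Finset.sum_congr rfl (fun v _ => hsum_h v), Finset.sum_const,
      nsmul_eq_mul, ← hndef, div_eq_iff hn.ne']
    ring
  have hnX : n * X = ∑ f ∈ A, (g f - m) * (Z f - (U.card : ℝ) * m) := by
    rw [hX, Finset.mul_sum, Finset.sum_congr rfl (fun v _ => hvar v), Finset.sum_comm]
    refine Finset.sum_congr rfl (fun f _ => ?_)
    rw [← Finset.mul_sum, Finset.sum_sub_distrib, Finset.sum_const, nsmul_eq_mul]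
  have hvg : n * vr A g = ∑ f ∈ A, (g f - m) ^ 2 := by
    rw [vr, ← hm, ev, mul_div_cancel₀ _ hn.ne']
  have hvZ : n * vr A Z = ∑ f ∈ A, (Z f - (U.card : ℝ) * m) ^ 2 := by
    rw [vr, hevZ, ev, mul_div_cancel₀ _ hn.ne']
  have hcs : (n * X) ^ 2 ≤ (n * vr A g) * (n * vr A Z) := by
    rw [hnX, hvg, hvZ]
    exact Finset.sum_mul_sq_le_sq_mul_sq A _ _
  have hvg0 : 0 ≤ vr A g := by
    have : 0 ≤ n * vr A g := by
      rw [hvg]
      exact Finset.sum_nonneg (fun f _ => sq_nonneg _)
    exact nonneg_of_mul_nonneg_right this hn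
  have hHZ : vr A Z ≤ K * X := H h
  have hX2 : X ^ 2 ≤ vr A g * (K * X) := by
    have h1 : n ^ 2 * X ^ 2 ≤ n ^ 2 * (vr A g * vr A Z) := by nlinarith
    have h2 : X ^ 2 ≤ vr A g * vr A Z := le_of_mul_le_mul_left h1 (by positivity)
    exact h2.trans (mul_le_mul_of_nonneg_left hHZ hvg0)
  have hX0 : 0 ≤ X := by
    refine Finset.sum_nonneg (fun v _ => ?_)
    unfold vr ev
    exact div_nonneg (Finset.sum_nonneg (fun f _ => sq_nonneg _)) (Nat.cast_nonneg _)
  rcases hX0.eq_or_lt with h0 | h0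
  · show X ≤ K * vr A g
    rw [← h0]
    exact mul_nonneg hK hvg0
  · show X ≤ K * vr A g
    have h1 : X * X ≤ (K * vr A g) * X := by nlinarith
    exact le_of_mul_le_mul_right h1 h0

end Pool.Agent.KempeMix
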