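import Pool.Agent.Lib.MP_26a019_lc.Mix.MDefs

set_option autoImplicit false

/-!
# Total influence bound implies the variance bound (Schur test)
-/

open Finset Classical

namespace Pool.Agent.KempeMix

open Pool.Agent.Kempe

variable {V C : Type} [Fintype V] [Fintype C]

namespace MInfl

noncomputable def n1 (A : Finset (V → C)) (v : V) (a : C) : ℝ :=
  ((A.filter (fun f => f v = a)).card : ℝ)

noncomputable def n2 (A : Finset (V → C)) (v : V) (a : C) (u : V) (c : C) : ℝ :=
  ((A.filter (fun f => f v = a ∧ f u = c)).card : ℝ)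

lemma n1_nonneg (A : Finset (V → C)) (v : V) (a : C) : 0 ≤ n1 A v a := Nat.cast_nonneg _

lemma n2_nonneg (A : Finset (V → C)) (v : V) (a : C) (u : V) (c : C) : 0 ≤ n2 A v a u c :=
  Nat.cast_nonneg _

lemma sum_one (A : Finset (V → C)) (v : V) (g : C → ℝ) :
    ∑ f ∈ A, g (f v) = ∑ a, n1 A v a * g a := by
  rw [← Finset.sum_fiberwise A (fun f => f v) (fun f => g (f v))]
  refine sum_congr rfl fun a _ => ?_
  rw [sum_congr rfl (fun f hf => by rw [(mem_filter.1 hf).2] : ∀ f ∈ A.filter (fun f => f v = a),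
    g (f v) = g a), sum_const, nsmul_eq_mul, n1]

lemma sum_two (A : Finset (V → C)) (v u : V) (φ : C → C → ℝ) :
    ∑ f ∈ A, φ (f v) (f u) = ∑ a, ∑ c, n2 A v a u c * φ a c := by
  rw [← Finset.sum_fiberwise A (fun f => f v) (fun f => φ (f v) (f u))]
  refine sum_congr rfl fun a _ => ?_
  rw [← Finset.sum_fiberwise (A.filter (fun f => f v = a)) (fun f => f u)
    (fun f => φ (f v) (f u))]
  refine sum_congr rfl fun c _ => ?_
  rw [filter_filter]
  rw [sum_congr rfl (fun f hf => by rw [(mem_filter.1 hf).2.1, (mem_filter.1 hf).2.2] :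
    ∀ f ∈ A.filter (fun f => f v = a ∧ f u = c), φ (f v) (f u) = φ a c), sum_const,
    nsmul_eq_mul, n2]

lemma n2_swap (A : Finset (V → C)) (v : V) (a : C) (u : V) (c : C) :
    n2 A v a u c = n2 A u c v a := by
  unfold n2
  congr 2
  exact filter_congr fun f _ => and_comm

lemma n2_sum_right (A : Finset (V → C)) (v : V) (a : C) (u : V) :
    ∑ c, n2 A v a u c = n1 A v a := by
  have h := sum_one (A.filter (fun f => f v = a)) u (fun _ => 1)
  simp only [sum_const, nsmul_eq_mul, mul_one] at h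
  rw [n1, h]
  refine sum_congr rfl fun c _ => ?_
  rw [n1, filter_filter, n2]

lemma n2_sum_left (A : Finset (V → C)) (v : V) (u : V) (c : C) :
    ∑ a, n2 A v a u c = n1 A u c := by
  rw [← n2_sum_right A u c v]
  exact sum_congr rfl fun a _ => n2_swap A v a u c

lemma n1_sum (A : Finset (V → C)) (v : V) : ∑ a, n1 A v a = (A.card : ℝ) := by
  have h := sum_one A v (fun _ => 1)
  simp only [sum_const, nsmul_eq_mul, mul_one] at h
  exact h.symm

lemma n2_self (A : Finset (V → C)) (v : V) (a c : C) :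
    n2 A v a v c = if a = c then n1 A v a else 0 := by
  unfold n2 n1
  split_ifs with h
  · subst h
    congr 2
    exact filter_congr fun f _ => and_self_iff
  · rw [filter_eq_empty_iff.2, card_empty, Nat.cast_zero]
    rintro f - ⟨h1, h2⟩
    exact h (h1.symm.trans h2)

lemma n2_zero (A : Finset (V → C)) (v : V) (a : C) (h : n1 A v a = 0) (u : V) (c : C) :
    n2 A v a u c = 0 := by
  have h1 := n2_sum_right A v a u
  rw [h] at h1
  exact (sum_eq_zero_iff_of_nonneg (fun c _ => n2_nonneg A v a u c)).1 h1 c (mem_univ c)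

/-- the covariances -/
noncomputable def cv (A : Finset (V → C)) (v : V) (a : C) (u : V) (c : C) : ℝ :=
  n2 A v a u c - n1 A v a * n1 A u c / (A.card : ℝ)

lemma cv_swap (A : Finset (V → C)) (v : V) (a : C) (u : V) (c : C) :
    cv A v a u c = cv A u c v a := by
  unfold cv
  rw [n2_swap, mul_comm (n1 A v a)]

lemma cp_eq (A : Finset (V → C)) (v : V) (a : C) (u : V) (c : C) :
    cp A v a u c = n2 A v a u c / n1 A v a := rfl

lemma cv_sum_self (A : Finset (V → C)) (hA : 0 < (A.card : ℝ)) (v : V) (a : C) :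
    ∑ c, |cv A v a v c| ≤ 2 * n1 A v a := by
  have h1 : ∀ c, |cv A v a v c| ≤ (if a = c then n1 A v a else 0) +
      n1 A v a / (A.card : ℝ) * n1 A v c := by
    intro c
    unfold cv
    rw [n2_self]
    have hx : 0 ≤ (if a = c then n1 A v a else 0) := by
      split_ifs
      · exact n1_nonneg A v a
      · exact le_rfl
    have hy : 0 ≤ n1 A v a * n1 A v c / (A.card : ℝ) :=
      div_nonneg (mul_nonneg (n1_nonneg _ _ _) (n1_nonneg _ _ _)) hA.le
    calc |(if a = c then n1 A v a else 0) - n1 A v a * n1 A v c / (A.card : ℝ)|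
        ≤ |(if a = c then n1 A v a else 0)| + |n1 A v a * n1 A v c / (A.card : ℝ)| :=
          abs_sub _ _
      _ = (if a = c then n1 A v a else 0) + n1 A v a / (A.card : ℝ) * n1 A v c := by
          rw [abs_of_nonneg hx, abs_of_nonneg hy]; ring
  refine (sum_le_sum fun c _ => h1 c).trans (le_of_eq ?_)
  rw [sum_add_distrib, sum_ite_eq, if_pos (mem_univ a), ← mul_sum, n1_sum,
    div_mul_cancel₀ _ hA.ne']
  ring

lemma cv_bound (A : Finset (V → C)) (hA : 0 < (A.card : ℝ)) (v : V) (a : C) (u : V) (c : C) :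
    |cv A v a u c| ≤ n1 A v a * ∑ b, n1 A v b / (A.card : ℝ) *
      |cp A v a u c - cp A v b u c| := by
  have hu : n1 A u c = ∑ b, n1 A v b * cp A v b u c := by
    rw [← n2_sum_left A v u c]
    refine sum_congr rfl fun b _ => ?_
    rw [cp_eq]
    by_cases hb : n1 A v b = 0
    · rw [n2_zero A v b hb, hb, zero_mul]
    · rw [mul_div_cancel₀ _ hb]
  have hv : n2 A v a u c = n1 A v a * cp A v a u c := by
    rw [cp_eq]
    by_cases hb : n1 A v a = 0
    · rw [n2_zero A v a hb, hb, zero_mul]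
    · rw [mul_div_cancel₀ _ hb]
  have hone : ∑ b, n1 A v b / (A.card : ℝ) = 1 := by
    rw [← sum_div, n1_sum, div_self hA.ne']
  have hcv : cv A v a u c = n1 A v a * ∑ b, n1 A v b / (A.card : ℝ) *
      (cp A v a u c - cp A v b u c) := by
    unfold cv
    have e1 : ∑ b, n1 A v b / (A.card : ℝ) * (cp A v a u c - cp A v b u c) =
        cp A v a u c - n1 A u c / (A.card : ℝ) := by
      simp only [mul_sub]
      rw [sum_sub_distrib, ← sum_mul, hone, one_mul, hu, sum_div]
      congr 1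
      exact sum_congr rfl fun b _ => by ring
    rw [e1, hv]
    ring
  rw [hcv, abs_mul, abs_of_nonneg (n1_nonneg A v a)]
  refine mul_le_mul_of_nonneg_left ?_ (n1_nonneg A v a)
  refine (abs_sum_le_sum_abs _ _).trans (le_of_eq ?_)
  refine sum_congr rfl fun b _ => ?_
  rw [abs_mul, abs_of_nonneg (div_nonneg (n1_nonneg A v b) hA.le)]

lemma cv_sum_erase (A : Finset (V → C)) (hA : 0 < (A.card : ℝ)) (U : Finset V) (Γ : ℝ)
    (v : V) (a : C) (hΓ : 0 ≤ Γ)
    (H : ∀ b : C, (∃ f ∈ A, f v = a) → (∃ f ∈ A, f v = b) →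
      ∑ u ∈ U.erase v, ∑ c, |cp A v a u c - cp A v b u c| ≤ 2 * Γ) :
    ∑ u ∈ U.erase v, ∑ c, |cv A v a u c| ≤ 2 * Γ * n1 A v a := by
  have hone : ∑ b, n1 A v b / (A.card : ℝ) = 1 := by
    rw [← sum_div, n1_sum, div_self hA.ne']
  have hpos : ∀ b, n1 A v b ≠ 0 → ∃ f ∈ A, f v = b := by
    intro b hb
    unfold n1 at hb
    have : (A.filter (fun f => f v = b)).card ≠ 0 := fun h => hb (by rw [h]; simp)
    obtain ⟨f, hf⟩ := card_pos.1 (Nat.pos_of_ne_zero this)
    exact ⟨f, (mem_filter.1 hf).1, (mem_filter.1 hf).2⟩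
  by_cases ha : n1 A v a = 0
  · have : ∀ u c, |cv A v a u c| = 0 := by
      intro u c
      unfold cv
      rw [n2_zero A v a ha, ha]
      simp
    simp [this, ha]
  have ha' := hpos a ha
  calc ∑ u ∈ U.erase v, ∑ c, |cv A v a u c|
      ≤ ∑ u ∈ U.erase v, ∑ c, n1 A v a * ∑ b, n1 A v b / (A.card : ℝ) *
          |cp A v a u c - cp A v b u c| :=
        sum_le_sum fun u _ => sum_le_sum fun c _ => cv_bound A hA v a u c
    _ = n1 A v a * ∑ b, n1 A v b / (A.card : ℝ) *
          ∑ u ∈ U.erase v, ∑ c, |cp A v a u c - cp A v b u c| := by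
        simp only [mul_sum]
        rw [sum_congr rfl (fun u _ => sum_comm), sum_comm]
    _ ≤ n1 A v a * ∑ b, n1 A v b / (A.card : ℝ) * (2 * Γ) := by
        refine mul_le_mul_of_nonneg_left (sum_le_sum fun b _ => ?_) (n1_nonneg A v a)
        by_cases hb : n1 A v b = 0
        · rw [hb]; simp
        · exact mul_le_mul_of_nonneg_left (H b ha' (hpos b hb))
            (div_nonneg (n1_nonneg A v b) hA.le)
    _ = 2 * Γ * n1 A v a := by
        rw [← sum_mul, hone]; ring

end MInfl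

open MInfl

/-- Total influence bound gives the variance bound (Schur test). -/
theorem si_of_influence (A : Finset (V → C)) (U : Finset V) (Γ : ℝ)
    (H : ∀ v ∈ U, ∀ a b : C, (∃ f ∈ A, f v = a) → (∃ f ∈ A, f v = b) →
      ∑ u ∈ U.erase v, ∑ c, |cp A v a u c - cp A v b u c| ≤ 2 * Γ)
    (h : V → C → ℝ) :
    vr A (fun f => ∑ v ∈ U, h v (f v)) ≤ (2 * Γ + 2) * ∑ v ∈ U, vr A (fun f => h v (f v)) := by
  rcases A.eq_empty_or_nonempty with rfl | hne
  · simp [vr, ev]
  rcases U.eq_empty_or_nonempty with rfl | hU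
  · simp [vr, ev]
  have hA : 0 < (A.card : ℝ) := by exact_mod_cast hne.card_pos
  obtain ⟨f₀, hf₀⟩ := hne
  obtain ⟨v₀, hv₀⟩ := hU
  have hΓ : 0 ≤ Γ := by
    have := H v₀ hv₀ (f₀ v₀) (f₀ v₀) ⟨f₀, hf₀, rfl⟩ ⟨f₀, hf₀, rfl⟩
    simp only [sub_self, abs_zero, sum_const_zero] at this
    linarith
  set k : V → C → ℝ := fun v a => h v a - ev A (fun f => h v (f v)) with hk
  have hk0 : ∀ v, ∑ a, n1 A v a * k v a = 0 := by
    intro v
    rw [← sum_one A v (k v)]
    simp only [hk]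
    rw [sum_sub_distrib, sum_const, nsmul_eq_mul]
    unfold ev
    rw [mul_div_cancel₀ _ hA.ne', sub_self]
  have hev : ev A (fun f => ∑ v ∈ U, h v (f v)) = ∑ v ∈ U, ev A (fun f => h v (f v)) := by
    unfold ev
    rw [sum_comm, sum_div]
  have hL : vr A (fun f => ∑ v ∈ U, h v (f v)) =
      (∑ v ∈ U, ∑ u ∈ U, ∑ a, ∑ c, cv A v a u c * (k v a * k u c)) / (A.card : ℝ) := by
    unfold vr
    rw [hev]
    rw [ev]
    congr 1
    have e1 : ∀ f : V → C, (∑ v ∈ U, h v (f v) - ∑ v ∈ U, ev A (fun f => h v (f v))) ^ 2 =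
        ∑ v ∈ U, ∑ u ∈ U, k v (f v) * k u (f u) := by
      intro f
      rw [← sum_sub_distrib, pow_two, sum_mul_sum]
    rw [sum_congr rfl fun f _ => e1 f, sum_comm]
    refine sum_congr rfl fun v _ => ?_
    rw [sum_comm]
    refine sum_congr rfl fun u _ => ?_
    rw [sum_two A v u (fun a c => k v a * k u c)]
    have e2 : ∑ a, ∑ c, n1 A v a * n1 A u c / (A.card : ℝ) * (k v a * k u c) = 0 := by
      have : ∀ a, ∑ c, n1 A v a * n1 A u c / (A.card : ℝ) * (k v a * k u c) =
          n1 A v a * k v a / (A.card : ℝ) * ∑ c, n1 A u c * k u c := by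
        intro a
        rw [mul_sum]
        exact sum_congr rfl fun c _ => by ring
      simp only [this, hk0, mul_zero, sum_const_zero]
    unfold cv
    simp only [sub_mul, sum_sub_distrib]
    rw [e2, sub_zero]
  have hR : ∀ v, vr A (fun f => h v (f v)) = (∑ a, n1 A v a * (k v a) ^ 2) / (A.card : ℝ) := by
    intro v
    unfold vr
    rw [ev, ← sum_one A v (fun a => (k v a) ^ 2)]
  have hS : ∑ v ∈ U, ∑ u ∈ U, ∑ a, ∑ c, |cv A v a u c| * (k u c) ^ 2 =
      ∑ v ∈ U, ∑ u ∈ U, ∑ a, ∑ c, |cv A v a u c| * (k v a) ^ 2 := by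
    rw [sum_comm]
    refine sum_congr rfl fun v _ => sum_congr rfl fun u _ => ?_
    rw [sum_comm]
    refine sum_congr rfl fun a _ => sum_congr rfl fun c _ => ?_
    rw [cv_swap]
  have hM : ∑ v ∈ U, ∑ u ∈ U, ∑ a, ∑ c, cv A v a u c * (k v a * k u c) ≤
      ∑ v ∈ U, ∑ u ∈ U, ∑ a, ∑ c, |cv A v a u c| * (k v a) ^ 2 := by
    have e1 : ∀ v u a c, cv A v a u c * (k v a * k u c) ≤
        1 / 2 * (|cv A v a u c| * (k v a) ^ 2) + 1 / 2 * (|cv A v a u c| * (k u c) ^ 2) := by
      intro v u a c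
      have h1 : cv A v a u c * (k v a * k u c) ≤ |cv A v a u c| * (|k v a| * |k u c|) := by
        rw [← abs_mul, ← abs_mul]
        exact le_abs_self _
      have h2 : |k v a| * |k u c| ≤ 1 / 2 * (k v a) ^ 2 + 1 / 2 * (k u c) ^ 2 := by
        have := two_mul_le_add_sq (|k v a|) (|k u c|)
        rw [sq_abs, sq_abs] at this
        linarith
      have h3 := mul_le_mul_of_nonneg_left h2 (abs_nonneg (cv A v a u c))
      linarith
    calc ∑ v ∈ U, ∑ u ∈ U, ∑ a, ∑ c, cv A v a u c * (k v a * k u c)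
        ≤ ∑ v ∈ U, ∑ u ∈ U, ∑ a, ∑ c, (1 / 2 * (|cv A v a u c| * (k v a) ^ 2) +
            1 / 2 * (|cv A v a u c| * (k u c) ^ 2)) :=
          sum_le_sum fun v _ => sum_le_sum fun u _ => sum_le_sum fun a _ =>
            sum_le_sum fun c _ => e1 v u a c
      _ = ∑ v ∈ U, ∑ u ∈ U, ∑ a, ∑ c, |cv A v a u c| * (k v a) ^ 2 := by
          simp only [sum_add_distrib, ← mul_sum]
          rw [hS]
          ring
  have hB : ∀ v ∈ U, ∑ u ∈ U, ∑ a, ∑ c, |cv A v a u c| * (k v a) ^ 2 ≤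
      (2 * Γ + 2) * ∑ a, n1 A v a * (k v a) ^ 2 := by
    intro v hv
    rw [sum_comm, mul_sum]
    refine sum_le_sum fun a _ => ?_
    have e1 : ∑ u ∈ U, ∑ c, |cv A v a u c| * (k v a) ^ 2 =
        (∑ u ∈ U, ∑ c, |cv A v a u c|) * (k v a) ^ 2 := by
      rw [sum_mul]
      exact sum_congr rfl fun u _ => by rw [sum_mul]
    have e2 : ∑ u ∈ U, ∑ c, |cv A v a u c| ≤ (2 * Γ + 2) * n1 A v a := by
      rw [← add_sum_erase U _ hv]
      have h1 := cv_sum_self A hA v a
      have h2 := cv_sum_erase A hA U Γ v a hΓ (fun b => H v hv a b)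
      linarith
    rw [e1]
    calc (∑ u ∈ U, ∑ c, |cv A v a u c|) * (k v a) ^ 2
        ≤ ((2 * Γ + 2) * n1 A v a) * (k v a) ^ 2 :=
          mul_le_mul_of_nonneg_right e2 (sq_nonneg _)
      _ = (2 * Γ + 2) * (n1 A v a * (k v a) ^ 2) := by ring
  rw [hL]
  simp only [hR]
  rw [← sum_div, mul_div_assoc', div_le_div_iff_of_pos_right hA]
  refine hM.trans ((sum_le_sum hB).trans (le_of_eq ?_))
  rw [mul_sum]

end Pool.Agent.KempeMix
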