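import Pool.Agent.Lib.MP_26a019_lc.Mix.MDefs

set_option autoImplicit false

/-!
# Connectivity of the colourings with `Δ + 2` colours
-/

open Finset Classical

namespace Pool.Agent.KempeMix

open Pool.Agent.Kempe

variable {V C : Type} [Fintype V] [Fintype C]

namespace MConnAux

/-- delete the edges at `v` -/
def del (G : SimpleGraph V) (v : V) : SimpleGraph V where
  Adj u w := G.Adj u w ∧ u ≠ v ∧ w ≠ v
  symm := ⟨fun _ _ h => ⟨h.1.symm, h.2.2, h.2.1⟩⟩
  loopless := ⟨fun u h => G.loopless.irrefl u h.1⟩

theorem proper_update {G : SimpleGraph V} {v : V} {x : V → C} {c : C}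
    (hx : Proper (del G v) x) (hc : ∀ u, G.Adj v u → x u ≠ c) :
    Proper G (Function.update x v c) := by
  intro u w huw
  by_cases hu : u = v
  · subst hu
    have hw : w ≠ u := huw.ne'
    rw [Function.update_self, Function.update_of_ne hw]
    exact (hc w huw).symm
  · by_cases hw : w = v
    · subst hw
      rw [Function.update_self, Function.update_of_ne hu]
      exact hc u huw.symm
    · rw [Function.update_of_ne hu, Function.update_of_ne hw]
      exact hx u w ⟨huw, hu, hw⟩

theorem exists_colour {Δ : ℕ} (hq : Δ + 2 ≤ Fintype.card C) {G : SimpleGraph V} {v : V}
    (hΔ : (univ.filter (fun u => G.Adj v u)).card ≤ Δ) (x : V → C) (b : C) :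
    ∃ c, c ≠ b ∧ ∀ u, G.Adj v u → x u ≠ c := by
  by_contra hcon
  push Not at hcon
  have h1 : (univ : Finset C) ⊆ insert b ((univ.filter (fun u => G.Adj v u)).image x) := by
    intro c _
    rw [Finset.mem_insert]
    by_cases hc : c = b
    · exact Or.inl hc
    · obtain ⟨u, hu, hu'⟩ := hcon c hc
      right
      rw [Finset.mem_image]
      exact ⟨u, by simpa using hu, hu'⟩
  have h2 := Finset.card_le_card h1
  rw [Finset.card_univ] at h2
  have h3 := Finset.card_insert_le b ((univ.filter (fun u => G.Adj v u)).image x)
  have h4 : ((univ.filter (fun u => G.Adj v u)).image x).card ≤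
      (univ.filter (fun u => G.Adj v u)).card := Finset.card_image_le
  omega

end MConnAux

open MConnAux in
/-- Connectivity with `Δ + 2` colours, with pinned vertices (all vertices outside `U`). -/
theorem conn (Δ : ℕ) (hq : Δ + 2 ≤ Fintype.card C) (G : SimpleGraph V)
    (hΔ : ∀ v, (univ.filter (fun u => G.Adj v u)).card ≤ Δ) (U : Finset V) (f f' : V → C)
    (hf : Proper G f) (hf' : Proper G f') (h : ∀ u, u ∉ U → f u = f' u) :
    Relation.ReflTransGen (Stp G U) f f' := by
  induction U using Finset.induction_on generalizing G f f' with
  | empty =>
    have : f = f' := funext fun u => h u (Finset.notMem_empty u)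
    rw [this]
  | insert v U' hv ih =>
    have hf'' : Proper (del G v) (Function.update f' v (f v)) := by
      intro u w huw
      obtain ⟨h1, h2, h3⟩ := huw
      rw [Function.update_of_ne h2, Function.update_of_ne h3]
      exact hf' u w h1
    have hpath := ih (del G v) (fun u => (Finset.card_le_card (fun w hw => by
        rw [Finset.mem_filter] at hw ⊢
        exact ⟨hw.1, hw.2.1⟩)).trans (hΔ u)) f (Function.update f' v (f v))
      (fun u w huw => hf u w huw.1) hf'' (by
        intro u hu
        by_cases huv : u = v
        · subst huv
          rw [Function.update_self]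
        · rw [Function.update_of_ne huv]
          exact h u (by
            rw [Finset.mem_insert]
            push Not
            exact ⟨huv, hu⟩))
    have hlift : ∀ x : V → C, Relation.ReflTransGen (Stp (del G v) U') f x →
        ∃ c, Proper G (Function.update x v c) ∧
          Relation.ReflTransGen (Stp G (insert v U')) f (Function.update x v c) := by
      intro x hx
      induction hx with
      | refl =>
        refine ⟨f v, ?_, ?_⟩
        · rw [Function.update_eq_self]
          exact hf
        · rw [Function.update_eq_self]
      | tail _ hxy ihx =>
        rename_i x y _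
        obtain ⟨c, hc1, hc2⟩ := ihx
        obtain ⟨hpx, hpy, w, hw, hxyw⟩ := hxy
        have hwv : w ≠ v := by
          rintro rfl
          exact hv hw
        obtain ⟨c', hc'1, hc'2⟩ := exists_colour (C := C) hq (hΔ v) x (y w)
        have p1 : Proper G (Function.update x v c') := proper_update hpx hc'2
        have p2 : Proper G (Function.update y v c') := by
          apply proper_update hpy
          intro u hu
          by_cases huw : u = w
          · subst huw
            exact hc'1.symm
          · rw [← hxyw u huw]
            exact hc'2 u hu
        refine ⟨c', p2, ?_⟩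
        have s1 : Stp G (insert v U') (Function.update x v c) (Function.update x v c') := by
          refine ⟨hc1, p1, v, Finset.mem_insert_self v U', fun u hu => ?_⟩
          rw [Function.update_of_ne hu, Function.update_of_ne hu]
        have s2 : Stp G (insert v U') (Function.update x v c') (Function.update y v c') := by
          refine ⟨p1, p2, w, Finset.mem_insert_of_mem hw, fun u hu => ?_⟩
          by_cases huv : u = v
          · subst huv
            rw [Function.update_self, Function.update_self]
          · rw [Function.update_of_ne huv, Function.update_of_ne huv]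
            exact hxyw u hu
        exact (hc2.tail s1).tail s2
    obtain ⟨c, hc1, hc2⟩ := hlift _ hpath
    rw [Function.update_idem] at hc1 hc2
    refine hc2.tail ⟨hc1, hf', v, Finset.mem_insert_self v U', fun u hu => ?_⟩
    rw [Function.update_of_ne hu]

end Pool.Agent.KempeMix
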