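import Pool.Agent.Lib.MP_26a019_lc.Mix.MTower
import Pool.Agent.Lib.MP_26a019_lc.Mix.MConn

set_option autoImplicit false

open Finset Classical

namespace Pool.Agent.KempeMix

open Pool.Agent.Kempe

variable {V C : Type} [Fintype V] [Fintype C]

/-- A path from `x` can be shortened: after the first step it does not visit `x` again. -/
theorem osc_path {α : Type} (R : α → α → Prop) {x y : α} (h : Relation.ReflTransGen R x y) :
    y = x ∨ (y ≠ x ∧ ∃ z, R x z ∧ z ≠ x ∧
      Relation.ReflTransGen (fun u v => R u v ∧ u ≠ x ∧ v ≠ x) z y) := by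
  induction h with
  | refl => exact Or.inl rfl
  | @tail b c _ hbc ih =>
    by_cases hc : c = x
    · exact Or.inl hc
    · refine Or.inr ⟨hc, ?_⟩
      rcases ih with hb | ⟨hb, z, hz, hzx, hzb⟩
      · subst hb
        exact ⟨c, hbc, hc, Relation.ReflTransGen.refl⟩
      · exact ⟨z, hz, hzx, hzb.tail ⟨hbc, hb, hc⟩⟩

theorem osc_aux {α : Type} (g : α → ℝ) (eps : ℝ) (he : 0 ≤ eps) (n : ℕ) :
    ∀ (A : Finset α) (R : α → α → Prop), A.card ≤ n →
      (∀ x y, R x y → x ∈ A ∧ y ∈ A ∧ |g x - g y| ≤ eps) → ∀ x y, x ∈ A →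
      Relation.ReflTransGen R x y → |g x - g y| ≤ (A.card : ℝ) * eps := by
  induction n with
  | zero =>
    intro A R hA _ x _ hx
    rw [Nat.le_zero, card_eq_zero] at hA
    rw [hA] at hx
    simp at hx
  | succ n ih =>
    intro A R hA hR x y hx h
    have hcard := card_erase_add_one hx
    rcases osc_path R h with hy | ⟨_, z, hz, hzx, hzy⟩
    · rw [hy, sub_self, abs_zero]
      positivity
    · have h1 := (hR x z hz).2.2
      have hzA : z ∈ A.erase x := mem_erase.2 ⟨hzx, (hR x z hz).2.1⟩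
      have h2 := ih (A.erase x) (fun u v => R u v ∧ u ≠ x ∧ v ≠ x) (by omega)
        (fun u v huv => ⟨mem_erase.2 ⟨huv.2.1, (hR u v huv.1).1⟩,
          mem_erase.2 ⟨huv.2.2, (hR u v huv.1).2.1⟩, (hR u v huv.1).2.2⟩) z y hzA hzy
      have h3 : |g x - g y| ≤ |g x - g z| + |g z - g y| := abs_sub_le _ _ _
      have h4 : (A.card : ℝ) = ((A.erase x).card : ℝ) + 1 := by
        rw [← hcard]; push_cast; ring
      rw [h4]
      linarith

/-- In a finite set `A` connected by moves `R`, a function with increments at most `eps` along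
the moves has oscillation at most `card A * eps`. (Take a path without repetition, or: the number
of `f''` in `A` reachable ... any proof.) -/
theorem osc_of_conn {α : Type} (A : Finset α) (R : α → α → Prop) (g : α → ℝ) (eps : ℝ)
    (he : 0 ≤ eps) (hR : ∀ x y, R x y → x ∈ A ∧ y ∈ A ∧ |g x - g y| ≤ eps) (x y : α)
    (hx : x ∈ A) (h : Relation.ReflTransGen R x y) : |g x - g y| ≤ (A.card : ℝ) * eps :=
  osc_aux g eps he A.card A R le_rfl hR x y hx h

theorem card_cls_le (Om : Finset (V → C)) (S : Finset V) (f : V → C) :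
    (cls Om S f).card ≤ (Fintype.card C) ^ (Sᶜ).card := by
  have h1 : (cls Om S f).card ≤ (univ : Finset ((Sᶜ : Finset V) → C)).card := by
    apply card_le_card_of_injOn (fun f' => fun v : (Sᶜ : Finset V) => f' v) (fun _ _ => mem_univ _)
    intro f1 h1 f2 h2 h12
    have m1 := (mem_filter.1 (mem_coe.1 h1)).2
    have m2 := (mem_filter.1 (mem_coe.1 h2)).2
    funext u
    by_cases hu : u ∈ S
    · rw [m1 u hu, m2 u hu]
    · exact congrFun h12 ⟨u, mem_compl.2 hu⟩
  rw [card_univ, Fintype.card_fun, Fintype.card_coe] at h1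
  exact h1

theorem vr_le_osc (A : Finset (V → C)) (g : (V → C) → ℝ) (D : ℝ)
    (hD : ∀ f ∈ A, ∀ f' ∈ A, |g f - g f'| ≤ D) : vr A g ≤ D ^ 2 := by
  rcases A.eq_empty_or_nonempty with rfl | hne
  · unfold vr ev
    simp [sq_nonneg]
  have hc : (0 : ℝ) < A.card := by exact_mod_cast hne.card_pos
  have h1 : ∀ f ∈ A, (g f - ev A g) ^ 2 ≤ D ^ 2 := by
    intro f hf
    have e : g f - ev A g = (∑ f' ∈ A, (g f - g f')) / A.card := by
      unfold ev
      rw [sum_sub_distrib, sum_const, nsmul_eq_mul]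
      field_simp
    have h2 : |g f - ev A g| ≤ D := by
      rw [e, abs_div, abs_of_pos hc, div_le_iff₀ hc]
      calc |∑ f' ∈ A, (g f - g f')| ≤ ∑ f' ∈ A, |g f - g f'| := abs_sum_le_sum_abs _ _
        _ ≤ ∑ _f' ∈ A, D := sum_le_sum fun f' hf' => hD f hf f' hf'
        _ = D * A.card := by rw [sum_const, nsmul_eq_mul]; ring
    rw [← sq_abs]
    exact pow_le_pow_left₀ (abs_nonneg _) h2 2
  unfold vr
  rw [ev, div_le_iff₀ hc]
  calc ∑ f ∈ A, (g f - ev A g) ^ 2 ≤ ∑ _f ∈ A, D ^ 2 := sum_le_sum h1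
    _ = D ^ 2 * A.card := by rw [sum_const, nsmul_eq_mul]; ring

/-- Poincare inequality with few free vertices. Proof: `A = cls (PC G C) S f`; for a move
`x → y` at `w ∉ S` inside `A`: `(g x - g y)^2 ≤ 2 (g x - m)^2 + 2 (g y - m)^2 ≤ 2 T`,
`m = cE Om {w}ᶜ g x`, `T = ∑_{v ∉ S} ∑_{f ∈ A} (g f - cE Om {v}ᶜ g f)^2`; so the oscillation on
`A` is at most `|A| sqrt(2 T)`, `vr A g ≤ osc^2 ≤ 2 |A|^2 T = 2 |A|^3 ∑_v ev A (...)`; sum over
`f ∈ PC` with the tower lemma. Constant `2 q^(3K)`. -/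
theorem base (Δ : ℕ) (hq : Δ + 2 ≤ Fintype.card C) (G : SimpleGraph V)
    (hΔ : ∀ v, (univ.filter (fun u => G.Adj v u)).card ≤ Δ) (K : ℕ) (g : (V → C) → ℝ)
    (S : Finset V) (hS : (Sᶜ).card ≤ K) :
    aa (PC G C) g S ≤ 2 * (Fintype.card C : ℝ) ^ (3 * K) *
      ∑ v ∈ Sᶜ, aa (PC G C) g ({v}ᶜ) := by
  set Om := PC G C with hOm
  set F : V → (V → C) → ℝ := fun v f => (g f - cE Om ({v}ᶜ) g f) ^ 2 with hF
  have hq1 : (1 : ℝ) ≤ Fintype.card C := by
    have : 1 ≤ Fintype.card C := by omega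
    exact_mod_cast this
  have key : ∀ f0 ∈ Om, vr (cls Om S f0) g ≤
      2 * (Fintype.card C : ℝ) ^ (3 * K) * ∑ v ∈ Sᶜ, ev (cls Om S f0) (F v) := by
    intro f0 hf0
    set A := cls Om S f0 with hA
    have hA0 : f0 ∈ A := cls_mem_self Om S f0 hf0
    have hAc : (0 : ℝ) < A.card := by exact_mod_cast card_pos.2 ⟨f0, hA0⟩
    set T : ℝ := ∑ v ∈ Sᶜ, ∑ f ∈ A, F v f with hT
    have hF0 : ∀ v f, 0 ≤ F v f := fun v f => sq_nonneg _
    have hT0 : 0 ≤ T := sum_nonneg fun v _ => sum_nonneg fun f _ => hF0 v f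
    have hAmem : ∀ f, f ∈ A ↔ Proper G f ∧ ∀ u ∈ S, f u = f0 u := by
      intro f
      rw [hA, cls, mem_filter, hOm, PC, mem_filter]
      simp
    set R : (V → C) → (V → C) → Prop := fun x y => Stp G (Sᶜ) x y ∧ x ∈ A ∧ y ∈ A with hR
    have hRprop : ∀ x y, R x y → x ∈ A ∧ y ∈ A ∧ |g x - g y| ≤ Real.sqrt (2 * T) := by
      rintro x y ⟨⟨hx, hy, w, hw, hxy⟩, hxA, hyA⟩
      refine ⟨hxA, hyA, ?_⟩
      by_cases hne : x = y
      · rw [hne, sub_self, abs_zero]
        exact Real.sqrt_nonneg _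
      apply Real.abs_le_sqrt
      have hxOm : x ∈ Om := (mem_filter.1 hxA).1
      have hyOm : y ∈ Om := (mem_filter.1 hyA).1
      have hycls : y ∈ cls Om ({w}ᶜ) x := by
        rw [cls, mem_filter]
        refine ⟨hyOm, fun u hu => ?_⟩
        rw [mem_compl, mem_singleton] at hu
        exact (hxy u hu).symm
      have hcE : cE Om ({w}ᶜ) g y = cE Om ({w}ᶜ) g x := by
        unfold cE
        rw [cls_congr Om ({w}ᶜ) x y hycls]
      have h1 : F w x + F w y ≤ T := by
        have h2 : F w x + F w y ≤ ∑ f ∈ A, F w f := by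
          have h3 : ∑ f ∈ ({x, y} : Finset (V → C)), F w f ≤ ∑ f ∈ A, F w f := by
            apply sum_le_sum_of_subset_of_nonneg
            · intro f hf
              rw [mem_insert, mem_singleton] at hf
              rcases hf with rfl | rfl
              · exact hxA
              · exact hyA
            · intro f _ _
              exact hF0 w f
          rwa [sum_pair hne] at h3
        refine h2.trans ?_
        exact single_le_sum (f := fun v => ∑ f ∈ A, F v f)
          (fun v _ => sum_nonneg fun f _ => hF0 v f) hw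
      have h4 : (g x - g y) ^ 2 ≤ 2 * (F w x + F w y) := by
        simp only [hF, hcE]
        nlinarith [sq_nonneg ((g x - cE Om ({w}ᶜ) g x) + (g y - cE Om ({w}ᶜ) g x))]
      linarith
    have hosc : ∀ f ∈ A, ∀ f' ∈ A, |g f - g f'| ≤ (A.card : ℝ) * Real.sqrt (2 * T) := by
      intro f hf f' hf'
      have hp := (hAmem f).1 hf
      have hp' := (hAmem f').1 hf'
      have hpath := conn Δ hq G hΔ (Sᶜ) f f' hp.1 hp'.1 (fun u hu => by
        have huS : u ∈ S := by simpa using hu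
        rw [hp.2 u huS, hp'.2 u huS])
      have hpath' : f' ∈ A ∧ Relation.ReflTransGen R f f' := by
        induction hpath with
        | refl => exact ⟨hf, Relation.ReflTransGen.refl⟩
        | @tail b c hfb hbc ih =>
          have hb : b ∈ A := by
            have : ∀ b, Relation.ReflTransGen (Stp G (Sᶜ)) f b → b ∈ A := by
              intro b hb
              induction hb with
              | refl => exact hf
              | @tail b c _ hbc ih =>
                obtain ⟨_, hc, w, hw, hbw⟩ := hbc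
                rw [hAmem] at ih ⊢
                refine ⟨hc, fun u hu => ?_⟩
                have huw : u ≠ w := by
                  rintro rfl
                  exact (mem_compl.1 hw) hu
                rw [← hbw u huw]
                exact ih.2 u hu
            exact this b hfb
          have hbp := (hAmem b).1 hb
          have ihb := ih hb hbp
          have hc : c ∈ A := hf'
          exact ⟨hc, ihb.2.tail ⟨hbc, hb, hc⟩⟩
      exact osc_of_conn A R g (Real.sqrt (2 * T)) (Real.sqrt_nonneg _) hRprop f f' hf hpath'.2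
    have h1 : vr A g ≤ ((A.card : ℝ) * Real.sqrt (2 * T)) ^ 2 := vr_le_osc A g _ hosc
    have h2 : ((A.card : ℝ) * Real.sqrt (2 * T)) ^ 2 = 2 * (A.card : ℝ) ^ 2 * T := by
      rw [mul_pow, Real.sq_sqrt (by positivity)]
      ring
    have h3 : T = (A.card : ℝ) * ∑ v ∈ Sᶜ, ev A (F v) := by
      rw [hT, mul_sum]
      refine sum_congr rfl fun v _ => ?_
      unfold ev
      field_simp
    have h4 : (A.card : ℝ) ^ 3 ≤ (Fintype.card C : ℝ) ^ (3 * K) := by
      have h5 : (A.card : ℝ) ≤ (Fintype.card C : ℝ) ^ K := by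
        have h6 : A.card ≤ (Fintype.card C) ^ (Sᶜ).card := card_cls_le Om S f0
        have h7 : (A.card : ℝ) ≤ (Fintype.card C : ℝ) ^ (Sᶜ).card := by exact_mod_cast h6
        exact h7.trans (pow_le_pow_right₀ hq1 hS)
      calc (A.card : ℝ) ^ 3 ≤ ((Fintype.card C : ℝ) ^ K) ^ 3 :=
            pow_le_pow_left₀ hAc.le h5 3
        _ = (Fintype.card C : ℝ) ^ (3 * K) := by rw [← pow_mul, mul_comm]
    have h8 : 0 ≤ ∑ v ∈ Sᶜ, ev A (F v) := by
      apply sum_nonneg
      intro v _
      unfold ev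
      exact div_nonneg (sum_nonneg fun f _ => hF0 v f) hAc.le
    calc vr A g ≤ 2 * (A.card : ℝ) ^ 2 * T := by rw [← h2]; exact h1
      _ = 2 * (A.card : ℝ) ^ 3 * ∑ v ∈ Sᶜ, ev A (F v) := by rw [h3]; ring
      _ ≤ 2 * (Fintype.card C : ℝ) ^ (3 * K) * ∑ v ∈ Sᶜ, ev A (F v) := by gcongr
  calc aa Om g S = ∑ f ∈ Om, vr (cls Om S f) g := aa_eq Om g S
    _ ≤ ∑ f ∈ Om, 2 * (Fintype.card C : ℝ) ^ (3 * K) * ∑ v ∈ Sᶜ, ev (cls Om S f) (F v) :=
        sum_le_sum key
    _ = 2 * (Fintype.card C : ℝ) ^ (3 * K) * ∑ v ∈ Sᶜ, ∑ f ∈ Om, ev (cls Om S f) (F v) := by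
        rw [← mul_sum, sum_comm]
    _ = 2 * (Fintype.card C : ℝ) ^ (3 * K) * ∑ v ∈ Sᶜ, aa Om g ({v}ᶜ) := by
        congr 1
        refine sum_congr rfl fun v _ => ?_
        rw [tower]
        rfl

end Pool.Agent.KempeMix
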