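import Pool.Agent.Lib.MP_26a019_lc.Mix.MDefs

set_option autoImplicit false

/-!
# Local to global recursion for `a_S`
-/

open Finset Classical

namespace Pool.Agent.KempeMix

variable {V C : Type} [Fintype V]

private theorem local_choose (a : Finset V → ℝ) (b : V → ℝ) (K : ℕ) (hK : 1 ≤ K) (C' : ℝ)
    (hC : 0 ≤ C')
    (hb : ∀ v, 0 ≤ b v)
    (hstep : ∀ S : Finset V, K < (Sᶜ).card → ∑ v ∈ Sᶜ, (a S - a (insert v S)) ≤ K * a S)
    (hbase : ∀ S : Finset V, (Sᶜ).card ≤ K → a S ≤ C' * ∑ v ∈ Sᶜ, b v) :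
    ∀ (m : ℕ) (S : Finset V), (Sᶜ).card = K + m →
      a S ≤ C' * ((K + m - 1).choose (K - 1) : ℝ) * ∑ v ∈ Sᶜ, b v := by
  intro m
  induction m with
  | zero =>
    intro S hS
    have h := hbase S (by omega)
    simpa using h
  | succ m ih =>
    intro S hS
    have h1 := hstep S (by omega)
    rw [Finset.sum_sub_distrib, Finset.sum_const, nsmul_eq_mul, hS] at h1
    have hins : ∀ v ∈ Sᶜ, (insert v S)ᶜ = (Sᶜ).erase v := by
      intro v hv
      ext u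
      simp only [mem_compl, mem_insert, mem_erase, not_or]
    have h2 : ∀ v ∈ Sᶜ, a (insert v S) ≤
        C' * ((K + m - 1).choose (K - 1) : ℝ) * (∑ u ∈ Sᶜ, b u - b v) := by
      intro v hv
      have hcard : ((insert v S)ᶜ).card = K + m := by
        rw [hins v hv, Finset.card_erase_of_mem hv, hS]; omega
      have h3 := ih (insert v S) hcard
      rw [hins v hv] at h3
      have h4 : ∑ u ∈ (Sᶜ).erase v, b u = ∑ u ∈ Sᶜ, b u - b v := by
        rw [← Finset.add_sum_erase _ _ hv]; ring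
      rw [h4] at h3
      exact h3
    have h5 : ∑ v ∈ Sᶜ, a (insert v S) ≤
        C' * ((K + m - 1).choose (K - 1) : ℝ) * (((K + m : ℕ) : ℝ) * ∑ u ∈ Sᶜ, b u) := by
      refine (Finset.sum_le_sum h2).trans (le_of_eq ?_)
      rw [← Finset.mul_sum, Finset.sum_sub_distrib, Finset.sum_const, nsmul_eq_mul, hS]
      push_cast
      ring
    have h6 : (K + m - 1).choose (K - 1) * (K + m) = (K + m).choose (K - 1) * (m + 1) := by
      have h7 := Nat.choose_mul_succ_eq (K + m - 1) (K - 1)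
      have e1 : K + m - 1 + 1 = K + m := by omega
      have e2 : K + m - (K - 1) = m + 1 := by omega
      rw [e1, e2] at h7
      exact h7
    have h6' : ((K + m - 1).choose (K - 1) : ℝ) * ((K + m : ℕ) : ℝ) =
        ((K + m).choose (K - 1) : ℝ) * ((m : ℝ) + 1) := by
      exact_mod_cast h6
    have h8 : ((m : ℝ) + 1) * a S ≤
        ((m : ℝ) + 1) * (C' * ((K + (m + 1) - 1).choose (K - 1) : ℝ) * ∑ v ∈ Sᶜ, b v) := by
      have e3 : K + (m + 1) - 1 = K + m := by omega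
      rw [e3]
      have h9 : C' * ((K + m - 1).choose (K - 1) : ℝ) * (((K + m : ℕ) : ℝ) * ∑ u ∈ Sᶜ, b u) =
          ((m : ℝ) + 1) * (C' * ((K + m).choose (K - 1) : ℝ) * ∑ v ∈ Sᶜ, b v) := by
        calc C' * ((K + m - 1).choose (K - 1) : ℝ) * (((K + m : ℕ) : ℝ) * ∑ u ∈ Sᶜ, b u)
            = C' * (((K + m - 1).choose (K - 1) : ℝ) * ((K + m : ℕ) : ℝ)) *
              ∑ u ∈ Sᶜ, b u := by ring
          _ = _ := by rw [h6']; ring
      rw [← h9]
      refine le_trans ?_ h5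
      push_cast at h1
      linarith
    have hm : (0 : ℝ) < (m : ℝ) + 1 := by positivity
    exact le_of_mul_le_mul_left h8 hm

theorem local_global (a : Finset V → ℝ) (b : V → ℝ) (K : ℕ) (hK : 1 ≤ K) (C' : ℝ) (hC : 0 ≤ C')
    (ha : ∀ S, 0 ≤ a S) (hb : ∀ v, 0 ≤ b v)
    (hstep : ∀ S : Finset V, K < (Sᶜ).card → ∑ v ∈ Sᶜ, (a S - a (insert v S)) ≤ K * a S)
    (hbase : ∀ S : Finset V, (Sᶜ).card ≤ K → a S ≤ C' * ∑ v ∈ Sᶜ, b v)
    (S : Finset V) :
    a S ≤ C' * (((Sᶜ).card : ℝ) + 1) ^ (K - 1) * ∑ v ∈ Sᶜ, b v := by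
  have hB : 0 ≤ ∑ v ∈ Sᶜ, b v := Finset.sum_nonneg fun v _ => hb v
  have hcard : (0 : ℝ) ≤ ((Sᶜ).card : ℝ) := Nat.cast_nonneg _
  by_cases h : (Sᶜ).card ≤ K
  · have h1 := hbase S h
    have h2 : (1 : ℝ) ≤ (((Sᶜ).card : ℝ) + 1) ^ (K - 1) := one_le_pow₀ (by linarith)
    calc a S ≤ C' * ∑ v ∈ Sᶜ, b v := h1
      _ = C' * 1 * ∑ v ∈ Sᶜ, b v := by ring
      _ ≤ C' * (((Sᶜ).card : ℝ) + 1) ^ (K - 1) * ∑ v ∈ Sᶜ, b v := by
        gcongr
  · push Not at h
    obtain ⟨m, hm⟩ : ∃ m, (Sᶜ).card = K + m := ⟨(Sᶜ).card - K, by omega⟩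
    have h1 := local_choose a b K hK C' hC hb hstep hbase m S hm
    have h2 : ((K + m - 1).choose (K - 1) : ℝ) ≤ (((Sᶜ).card : ℝ) + 1) ^ (K - 1) := by
      have h3 : (K + m - 1).choose (K - 1) ≤ (K + m - 1) ^ (K - 1) := Nat.choose_le_pow _ _
      have h4 : (K + m - 1) ^ (K - 1) ≤ ((Sᶜ).card + 1) ^ (K - 1) :=
        Nat.pow_le_pow_left (by omega) _
      exact_mod_cast h3.trans h4
    refine h1.trans ?_
    gcongr

end Pool.Agent.KempeMix
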