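import Pool.Agent.Lib.MP_26a019_lc.Mix.MTower
import Pool.Agent.Lib.MP_26a019_lc.Mix.MDual
import Pool.Agent.Lib.MP_26a019_lc.Mix.MLocal
import Pool.Agent.Lib.MP_26a019_lc.Mix.MBase
import Pool.Agent.Lib.MP_26a019_lc.Mix.MMix

set_option autoImplicit false

/-!
Spectral independence of the uniform law on proper colourings with `q ≥ Δ + 2` colours, for all
pinnings with more than `K` free vertices, implies polynomial mixing of Glauber dynamics.
-/

open Finset Classical

namespace Pool.Agent.KempeMix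

open Pool.Agent.Kempe

variable {V C : Type} [Fintype V] [Fintype C]

theorem om_eq_cls (G : SimpleGraph V) (W : Finset V) (p : V → C) :
    Om G W p = cls (PC G C) W p := by
  ext f
  simp [Om, cls, PC]

/-- Spectral independence for all pinnings implies polynomial mixing. -/
theorem mixing_of_si [Nonempty V] (Δ : ℕ) (hq : Δ + 2 ≤ Fintype.card C) (K : ℕ) (hK : 1 ≤ K)
    (G : SimpleGraph V)
    (hΔ : ∀ v, (univ.filter (fun u => G.Adj v u)).card ≤ Δ)
    (H : ∀ (W : Finset V) (p : V → C), p ∈ PC G C → K < (Wᶜ).card → ∀ h : V → C → ℝ,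
      vr (Om G W p) (fun f => ∑ v ∈ Wᶜ, h v (f v)) ≤
        K * ∑ v ∈ Wᶜ, vr (Om G W p) (fun f => h v (f v)))
    (t : ℕ) (ht : 2 * (Fintype.card C : ℝ) ^ (3 * K + 1) *
      ((Fintype.card V : ℝ) + 1) ^ (K + 1) ≤ t)
    (f0 : {f : V → C // f ∈ PC G C}) : tvd G C t f0 ≤ 1 / 4 := by
  have hq2 : (2 : ℝ) ≤ (Fintype.card C : ℝ) := by
    have : 2 ≤ Fintype.card C := by omega
    exact_mod_cast this
  have hn1 : (1 : ℝ) ≤ (Fintype.card V : ℝ) := by
    have : 1 ≤ Fintype.card V := Fintype.card_pos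
    exact_mod_cast this
  set q : ℝ := (Fintype.card C : ℝ) with hqdef
  set n : ℝ := (Fintype.card V : ℝ) with hndef
  have hstep : ∀ (g : (V → C) → ℝ) (S : Finset V), K < (Sᶜ).card →
      ∑ v ∈ Sᶜ, (aa (PC G C) g S - aa (PC G C) g (insert v S)) ≤ K * aa (PC G C) g S := by
    intro g S hS
    have h1 : ∀ v, aa (PC G C) g S - aa (PC G C) g (insert v S) =
        ∑ f ∈ PC G C, vr (cls (PC G C) S f)
          (fun f' => ev ((cls (PC G C) S f).filter (fun f'' => f'' v = f' v)) g) := by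
      intro v
      rw [← cE_insert_sq, aa_insert (PC G C) g S v]
      ring
    calc ∑ v ∈ Sᶜ, (aa (PC G C) g S - aa (PC G C) g (insert v S))
        = ∑ v ∈ Sᶜ, ∑ f ∈ PC G C, vr (cls (PC G C) S f)
          (fun f' => ev ((cls (PC G C) S f).filter (fun f'' => f'' v = f' v)) g) :=
          sum_congr rfl (fun v _ => h1 v)
      _ = ∑ f ∈ PC G C, ∑ v ∈ Sᶜ, vr (cls (PC G C) S f)
          (fun f' => ev ((cls (PC G C) S f).filter (fun f'' => f'' v = f' v)) g) := sum_comm
      _ ≤ ∑ f ∈ PC G C, K * vr (cls (PC G C) S f) g := by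
          apply sum_le_sum
          intro f hf
          apply dual (cls (PC G C) S f) Sᶜ K (by positivity) _ g
          intro h
          have := H S f hf hS h
          rwa [om_eq_cls] at this
      _ = K * aa (PC G C) g S := by rw [← mul_sum, aa_eq]
  have hP : ∀ g : (V → C) → ℝ, aa (PC G C) g ∅ ≤
      (2 * q ^ (3 * K) * (n + 1) ^ (K - 1)) * ∑ v, aa (PC G C) g ({v}ᶜ) := by
    intro g
    have hl := local_global (aa (PC G C) g) (fun v => aa (PC G C) g ({v}ᶜ)) K hK
      (2 * q ^ (3 * K)) (by positivity) (fun S => aa_nonneg _ _ _) (fun v => aa_nonneg _ _ _)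
      (hstep g) (fun S hS => base Δ hq G hΔ K g S hS) ∅
    simpa using hl
  have hB : (1 : ℝ) ≤ 2 * q ^ (3 * K) * (n + 1) ^ (K - 1) := by
    have h1 : (1 : ℝ) ≤ q ^ (3 * K) := one_le_pow₀ (by linarith)
    have h2 : (1 : ℝ) ≤ (n + 1) ^ (K - 1) := one_le_pow₀ (by linarith)
    nlinarith
  have hlog : Real.log (4 * q ^ (Fintype.card V)) ≤ (n + 1) * q := by
    rw [Real.log_mul (by norm_num) (by positivity), Real.log_pow]
    have h4 : Real.log 4 ≤ 3 := by
      have := Real.log_le_sub_one_of_pos (show (0 : ℝ) < 4 by norm_num)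
      linarith
    have h4' : Real.log 4 ≤ 2 := by
      have h : Real.log 4 = 2 * Real.log 2 := by
        rw [show (4 : ℝ) = 2 ^ 2 by norm_num, Real.log_pow]; norm_num
      have h2 := Real.log_two_lt_d9
      rw [h]
      linarith
    have hlq : Real.log q ≤ q - 1 := Real.log_le_sub_one_of_pos (by linarith)
    have h5 : n * Real.log q ≤ n * (q - 1) := mul_le_mul_of_nonneg_left hlq (by linarith)
    rw [← hndef]
    nlinarith
  apply mix_of_poincare G (2 * q ^ (3 * K) * (n + 1) ^ (K - 1)) hB hP t _ f0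
  rw [← hndef, ← hqdef]
  refine le_trans ?_ ht
  calc n * (2 * q ^ (3 * K) * (n + 1) ^ (K - 1)) * Real.log (4 * q ^ Fintype.card V)
      ≤ n * (2 * q ^ (3 * K) * (n + 1) ^ (K - 1)) * ((n + 1) * q) :=
        mul_le_mul_of_nonneg_left hlog (by positivity)
    _ ≤ (n + 1) * (2 * q ^ (3 * K) * (n + 1) ^ (K - 1)) * ((n + 1) * q) := by
        apply mul_le_mul_of_nonneg_right _ (by positivity)
        apply mul_le_mul_of_nonneg_right _ (by positivity)
        linarith
    _ = 2 * q ^ (3 * K + 1) * (n + 1) ^ (K + 1) := by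
        obtain ⟨m, rfl⟩ : ∃ m, K = m + 1 := ⟨K - 1, by omega⟩
        simp only [Nat.add_sub_cancel]
        ring

end Pool.Agent.KempeMix
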