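import Pool.Agent.Lib.MP_26a019_lc.Defs

set_option autoImplicit false

/-!
# Definitions for: spectral independence implies polynomial mixing

`A`, `Om` are finite sets of configurations `V → C` with the uniform law.
-/

open Finset Classical

namespace Pool.Agent.KempeMix

open Pool.Agent.Kempe

variable {V C : Type} [Fintype V] [Fintype C]

/-- mean over a finite set of configurations -/
noncomputable def ev (A : Finset (V → C)) (g : (V → C) → ℝ) : ℝ :=
  (∑ f ∈ A, g f) / (A.card : ℝ)

/-- variance over a finite set of configurations -/
noncomputable def vr (A : Finset (V → C)) (g : (V → C) → ℝ) : ℝ :=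
  ev A (fun f => (g f - ev A g) ^ 2)

/-- the configurations of `Om` which agree with `f` on `S` -/
noncomputable def cls (Om : Finset (V → C)) (S : Finset V) (f : V → C) : Finset (V → C) :=
  Om.filter (fun f' => ∀ u ∈ S, f' u = f u)

/-- conditional expectation given the restriction to `S` -/
noncomputable def cE (Om : Finset (V → C)) (S : Finset V) (g : (V → C) → ℝ) (f : V → C) : ℝ :=
  ev (cls Om S f) g

/-- `a_S = ∑ (g - E[g | f_S])^2` (not normalised) -/
noncomputable def aa (Om : Finset (V → C)) (g : (V → C) → ℝ) (S : Finset V) : ℝ :=
  ∑ f ∈ Om, (g f - cE Om S g f) ^ 2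

/-- conditional probability of `f u = c` given `f v = a` under the uniform law on `A` -/
noncomputable def cp (A : Finset (V → C)) (v : V) (a : C) (u : V) (c : C) : ℝ :=
  ((A.filter (fun f => f v = a ∧ f u = c)).card : ℝ) / ((A.filter (fun f => f v = a)).card : ℝ)

/-- the transition matrix of Glauber dynamics on the proper colourings -/
noncomputable def GM (G : SimpleGraph V) (C : Type) [Fintype C] :
    Matrix {f : V → C // f ∈ PC G C} {f : V → C // f ∈ PC G C} ℝ :=
  fun f f' => glauber G f.1 f'.1

/-- total variation distance to the uniform law after `t` steps from `f0` -/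
noncomputable def tvd (G : SimpleGraph V) (C : Type) [Fintype C] (t : ℕ)
    (f0 : {f : V → C // f ∈ PC G C}) : ℝ :=
  (1 / 2) * ∑ f, |((GM G C) ^ t) f0 f - 1 / ((PC G C).card : ℝ)|

/-- single site moves at vertices of `U` between proper colourings -/
def Stp (G : SimpleGraph V) (U : Finset V) (x y : V → C) : Prop :=
  Proper G x ∧ Proper G y ∧ ∃ w ∈ U, ∀ u, u ≠ w → x u = y u

end Pool.Agent.KempeMix
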